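import Pool.Agent.Lib.MP_3eff7f_gt_h14.Defs

set_option autoImplicit false

namespace Pool.Agent.Lib.MP_3eff7f_gt_h14

open Filter Topology Matrix Set Bundle MeasureTheory
open scoped ContDiff Manifold

variable {n : ℕ}

abbrev MF (n : ℕ) : Type := (Fin n → ℝ) → Matrix (Fin n) (Fin n) ℝ

/-- The bilinear form of a matrix. -/
noncomputable def bil (A : Matrix (Fin n) (Fin n) ℝ) :
    (Fin n → ℝ) →L[ℝ] (Fin n → ℝ) →L[ℝ] ℝ :=
  ∑ i, ∑ j, A i j • (ContinuousLinearMap.proj (R := ℝ) (φ := fun _ : Fin n => ℝ) i).smulRight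
    (ContinuousLinearMap.proj (R := ℝ) (φ := fun _ : Fin n => ℝ) j)

theorem bil_apply (A : Matrix (Fin n) (Fin n) ℝ) (v w : Fin n → ℝ) :
    bil A v w = v ⬝ᵥ A *ᵥ w := by
  simp only [bil, dotProduct, mulVec, Finset.mul_sum, _root_.sum_apply,
    _root_.smul_apply, ContinuousLinearMap.smulRight_apply,
    ContinuousLinearMap.proj_apply, smul_eq_mul]
  exact Finset.sum_congr rfl fun i _ => Finset.sum_congr rfl fun j _ => by ring

theorem bil_single (A : Matrix (Fin n) (Fin n) ℝ) (i j : Fin n) :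
    bil A (Pi.single i 1) (Pi.single j 1) = A i j := by
  simp [bil_apply]

theorem bil_symm {A : Matrix (Fin n) (Fin n) ℝ} (hA : A.PosDef) (v w : Fin n → ℝ) :
    bil A v w = bil A w v := by
  have := hA.isHermitian
  rw [bil_apply, bil_apply, dotProduct_mulVec, dotProduct_comm, ← mulVec_transpose,
    ← conjTranspose_eq_transpose_of_trivial, this]

theorem bil_bounded {A : Matrix (Fin n) (Fin n) ℝ} (hA : A.PosDef) :
    Bornology.IsVonNBounded ℝ {v : Fin n → ℝ | bil A v v < 1} := by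
  rw [NormedSpace.isVonNBounded_iff']
  rcases (Metric.sphere (0 : Fin n → ℝ) 1).eq_empty_or_nonempty with h | h
  · refine ⟨0, fun v _ => ?_⟩
    by_contra hv
    have : (‖v‖⁻¹ • v) ∈ Metric.sphere (0 : Fin n → ℝ) 1 := by
      simp [norm_smul, inv_mul_cancel₀ (not_le.1 hv).ne']
    rw [h] at this
    exact this
  obtain ⟨u, hu, hmin⟩ := (isCompact_sphere (0 : Fin n → ℝ) 1).exists_isMinOn h
    (f := fun v => bil A v v) (by fun_prop)
  have hc : 0 < bil A u u := by
    rw [bil_apply]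
    exact hA.dotProduct_mulVec_pos (x := u) (by rintro rfl; simp at hu)
  refine ⟨max 1 (bil A u u)⁻¹, fun v hv => ?_⟩
  by_contra hlt
  rw [not_le, max_lt_iff] at hlt
  have h0 : 0 < ‖v‖ := by linarith [hlt.1]
  have h1 : (‖v‖⁻¹ • v) ∈ Metric.sphere (0 : Fin n → ℝ) 1 := by
    simp [norm_smul, inv_mul_cancel₀ h0.ne']
  have h2 : bil A u u ≤ ‖v‖⁻¹ * (‖v‖⁻¹ * bil A v v) := by simpa using hmin h1
  have h3 : bil A v v < 1 := hv
  rw [inv_lt_comm₀ hc h0] at hlt
  have h4 : ‖v‖⁻¹ < 1 := inv_lt_one_of_one_lt₀ hlt.1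
  have h5 := inv_pos.2 h0
  nlinarith [mul_pos h5 h5]

theorem smul_const_aux {E F : Type} [NormedAddCommGroup E] [NormedSpace ℝ E]
    [NormedAddCommGroup F] [NormedSpace ℝ F] {f : E → ℝ} {x : E} (hf : ContDiffAt ℝ ∞ f x) (c : F) :
    ContDiffAt ℝ ∞ (fun y => f y • c) x :=
  hf.smul_const c

/-- `φ` pulls the metric `G` back to itself at `x`. -/
def Pull (G : MF n) (φ : (Fin n → ℝ) → Fin n → ℝ) (x : Fin n → ℝ) : Prop :=
  ∀ v w, bil (G (φ x)) (fderiv ℝ φ x v) (fderiv ℝ φ x w) = bil (G x) v w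

theorem Pull.congr {G : MF n} {φ ψ : (Fin n → ℝ) → Fin n → ℝ} {x : Fin n → ℝ} (h : Pull G φ x)
    (e : ψ =ᶠ[𝓝 x] φ) : Pull G ψ x := by
  intro v w
  rw [e.fderiv_eq, e.eq_of_nhds]
  exact h v w

theorem Pull.det {G : MF n} {φ : (Fin n → ℝ) → Fin n → ℝ} {x : Fin n → ℝ} (h : Pull G φ x) :
    (G x).det = (fderiv ℝ φ x).det ^ 2 * (G (φ x)).det := by
  let J := LinearMap.toMatrix' (fderiv ℝ φ x : (Fin n → ℝ) →ₗ[ℝ] (Fin n → ℝ))
  have hJ : ∀ v, J *ᵥ v = fderiv ℝ φ x v := fun v => by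
    simp [J, LinearMap.toMatrix'_mulVec]
  have : G x = Jᵀ * G (φ x) * J := by
    ext i j
    rw [← bil_single (G x), ← h, ← bil_single (Jᵀ * _ * _), bil_apply, bil_apply, ← mulVec_mulVec,
      ← mulVec_mulVec, dotProduct_mulVec _ Jᵀ, vecMul_transpose, hJ, hJ]
  rw [this, det_mul, det_mul, det_transpose, ContinuousLinearMap.det, ← LinearMap.det_toMatrix']
  ring

variable {M : Type} [TopologicalSpace M] [ChartedSpace (Fin n → ℝ) M]

variable (M) in
/-- One matrix function that gives the coefficients of a metric in all charts. -/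
structure MData (G : MF n) : Prop where
  sm : ∀ i j, ContDiff ℝ ∞ fun x => G x i j
  pos : ∀ x, (G x).PosDef
  compat : ∀ e ∈ atlas (Fin n → ℝ) M, ∀ e' ∈ atlas (Fin n → ℝ) M, ∀ x ∈ e.target,
    e.symm x ∈ e'.source → Pull G (fun y => e' (e.symm y)) x

variable [IsManifold 𝓘(ℝ, Fin n → ℝ) ∞ M]

theorem contMDiffAt_atlas {e : OpenPartialHomeomorph M (Fin n → ℝ)}
    (he : e ∈ atlas (Fin n → ℝ) M) {q : M} (hq : q ∈ e.source) :
    ContMDiffAt 𝓘(ℝ, Fin n → ℝ) 𝓘(ℝ, Fin n → ℝ) ∞ e q :=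
  (contMDiffOn_of_mem_maximalAtlas (IsManifold.subset_maximalAtlas he) q hq).contMDiffAt
    (e.open_source.mem_nhds hq)

theorem contMDiffAt_atlas_symm {e : OpenPartialHomeomorph M (Fin n → ℝ)}
    (he : e ∈ atlas (Fin n → ℝ) M) {x : Fin n → ℝ} (hx : x ∈ e.target) :
    ContMDiffAt 𝓘(ℝ, Fin n → ℝ) 𝓘(ℝ, Fin n → ℝ) ∞ e.symm x :=
  (contMDiffOn_symm_of_mem_maximalAtlas (IsManifold.subset_maximalAtlas he) x hx).contMDiffAt
    (e.open_target.mem_nhds hx)

theorem contDiffAt_tr {e e' : OpenPartialHomeomorph M (Fin n → ℝ)}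
    (he : e ∈ atlas (Fin n → ℝ) M) (he' : e' ∈ atlas (Fin n → ℝ) M) {x : Fin n → ℝ}
    (hx : x ∈ e.target) (hq : e.symm x ∈ e'.source) :
    ContDiffAt ℝ ∞ (fun y => e' (e.symm y)) x :=
  contMDiffAt_iff_contDiffAt.1 ((contMDiffAt_atlas he' hq).comp x (contMDiffAt_atlas_symm he hx))

set_option backward.isDefEq.respectTransparency false in
theorem chartVec_eq {e : OpenPartialHomeomorph M (Fin n → ℝ)} (he : e ∈ atlas (Fin n → ℝ) M)
    {x : Fin n → ℝ} (hx : x ∈ e.target) (v : Fin n → ℝ) :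
    chartVec e x v = fderiv ℝ (fun y => chartAt (Fin n → ℝ) (e.symm x) (e.symm y)) x v := by
  have := mdifferentiableAt_atlas_symm (I := 𝓘(ℝ, Fin n → ℝ)) he hx
  simp only [chartVec, mfderiv, if_pos this, mfld_simps, fderivWithin_univ]
  rfl

set_option backward.isDefEq.respectTransparency false in
theorem triv_symm {p q : M} (hq : q ∈ (chartAt (Fin n → ℝ) p).source) (v : Fin n → ℝ) :
    (trivializationAt (Fin n → ℝ) (TangentSpace 𝓘(ℝ, Fin n → ℝ)) p).symm q v =
      fderiv ℝ (fun y => chartAt (Fin n → ℝ) q ((chartAt (Fin n → ℝ) p).symm y))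
        (chartAt (Fin n → ℝ) p q) v := by
  have := TangentBundle.symmL_trivializationAt_eq_core (I := 𝓘(ℝ, Fin n → ℝ)) hq
  have h2 := DFunLike.congr_fun this v
  rw [Trivialization.symmL_apply _ (by simpa using hq)] at h2
  simp only [tangentBundleCore_coordChange, mfld_simps, fderivWithin_univ] at h2
  exact h2

set_option backward.isDefEq.respectTransparency false in
/-- The Riemannian metric with given coefficients. -/
noncomputable def MData.metric {G : MF n} (h : MData M G) : RMetric (Fin n → ℝ) M where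
  inner q := bil (G (chartAt (Fin n → ℝ) q q))
  symm q v w := bil_symm (h.pos _) v w
  pos q v hv := by
    change 0 < bil _ v v
    rw [bil_apply]
    exact (h.pos _).dotProduct_mulVec_pos hv
  isVonNBounded q := bil_bounded (h.pos _)
  contMDiff := by
    intro p
    rw [contMDiffAt_section]
    have h1 : ContMDiffAt 𝓘(ℝ, Fin n → ℝ) 𝓘(ℝ, (Fin n → ℝ) →L[ℝ] (Fin n → ℝ) →L[ℝ] ℝ) ∞
        (fun q => bil (G (chartAt (Fin n → ℝ) p q))) p := by
      have h2 : ContDiffAt ℝ ∞ (fun x => bil (G x)) (chartAt (Fin n → ℝ) p p) :=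
        ContDiffAt.sum fun i _ => ContDiffAt.sum fun j _ =>
          smul_const_aux (h.sm i j).contDiffAt _
      exact h2.contMDiffAt.comp p ((contMDiffOn_chart _ (mem_chart_source _ p)).contMDiffAt
        (chart_source_mem_nhds _ p))
    refine h1.congr_of_eventuallyEq ?_
    filter_upwards [chart_source_mem_nhds (Fin n → ℝ) p] with q hq
    ext v w
    have hl := (chartAt (Fin n → ℝ) p).left_inv hq
    rw [hom_trivializationAt_apply]
    dsimp only
    have := h.compat _ (chart_mem_atlas _ p) _ (chart_mem_atlas _ q) _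
      ((chartAt (Fin n → ℝ) p).map_source hq) (by rw [hl]; exact mem_chart_source _ _)
      v w
    rw [inCoordinates_apply_eq₂ hq hq (by simp), triv_symm hq, triv_symm hq]
    simp only [hl] at this
    simp
    exact this

theorem MData.ip_chartVec {G : MF n} (h : MData M G) {e : OpenPartialHomeomorph M (Fin n → ℝ)}
    (he : e ∈ atlas (Fin n → ℝ) M) {x : Fin n → ℝ} (hx : x ∈ e.target) (v w : Fin n → ℝ) :
    ip h.metric (e.symm x) (chartVec e x v) (chartVec e x w) = bil (G x) v w := by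
  rw [chartVec_eq he hx, chartVec_eq he hx]
  exact h.compat e he _ (chart_mem_atlas _ (e.symm x)) x hx (mem_chart_source _ _) v w

theorem MData.coeff_metric {G : MF n} (h : MData M G) {e : OpenPartialHomeomorph M (Fin n → ℝ)}
    (he : e ∈ atlas (Fin n → ℝ) M) {x : Fin n → ℝ} (hx : x ∈ e.target) :
    coeff h.metric e x = G x := by
  ext i j
  rw [coeff, of_apply, h.ip_chartVec he hx, bil_single]

theorem two_le_inf : (2 : ℕ∞ω) ≤ ∞ := WithTop.coe_le_coe.2 le_top

theorem contDiffAt_chart_curve {γ : ℝ → M} (hγ : ContMDiff 𝓘(ℝ, ℝ) 𝓘(ℝ, Fin n → ℝ) 2 γ)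
    {e : OpenPartialHomeomorph M (Fin n → ℝ)} (he : e ∈ atlas (Fin n → ℝ) M) {t : ℝ}
    (ht : γ t ∈ e.source) : ContDiffAt ℝ 2 (fun s => e (γ s)) t :=
  contMDiffAt_iff_contDiffAt.1 (((contMDiffAt_atlas he ht).of_le two_le_inf).comp t (hγ t))

set_option backward.isDefEq.respectTransparency false in
theorem MData.speed {G : MF n} (h : MData M G) {γ : ℝ → M}
    (hγ : ContMDiff 𝓘(ℝ, ℝ) 𝓘(ℝ, Fin n → ℝ) 2 γ) {e : OpenPartialHomeomorph M (Fin n → ℝ)}
    (he : e ∈ atlas (Fin n → ℝ) M) {t : ℝ} (ht : γ t ∈ e.source) :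
    ip h.metric (γ t) (vel (Fin n → ℝ) γ t) (vel (Fin n → ℝ) γ t) =
      bil (G (e (γ t))) (deriv (fun s => e (γ s)) t) (deriv (fun s => e (γ s)) t) := by
  have hx := e.map_source ht
  have hc := contDiffAt_chart_curve hγ he ht
  have hd := (hγ t).mdifferentiableAt (by simp)
  have e1 : (vel (Fin n → ℝ) γ t : Fin n → ℝ) =
      deriv (fun s => chartAt (Fin n → ℝ) (γ t) (γ s)) t := by
    simp only [vel, mfderiv, if_pos hd, mfld_simps, fderivWithin_univ]
    rfl
  have e2 : (fun s => chartAt (Fin n → ℝ) (γ t) (γ s)) =ᶠ[𝓝 t]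
      (fun y => chartAt (Fin n → ℝ) (γ t) (e.symm y)) ∘ fun s => e (γ s) := by
    filter_upwards [hγ.continuous.continuousAt.eventually (e.open_source.mem_nhds ht)] with s hs
    simp only [Function.comp_apply, e.left_inv hs]
  have hq : e.symm (e (γ t)) ∈ (chartAt (Fin n → ℝ) (γ t)).source := by
    rw [e.left_inv ht]; exact mem_chart_source _ _
  have h3 := (contDiffAt_tr he (chart_mem_atlas _ (γ t)) hx hq).differentiableAt (by simp)
  have e3 : deriv (fun s => chartAt (Fin n → ℝ) (γ t) (γ s)) t =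
      fderiv ℝ (fun y => chartAt (Fin n → ℝ) (γ t) (e.symm y)) (e (γ t))
        (deriv (fun s => e (γ s)) t) := by
    rw [e2.deriv_eq]
    exact (h3.hasFDerivAt.comp_hasDerivAt t (hc.differentiableAt (by simp)).hasDerivAt).deriv
  have := h.compat e he _ (chart_mem_atlas _ (γ t)) _ hx hq (deriv (fun s => e (γ s)) t)
    (deriv (fun s => e (γ s)) t)
  rw [← this, ← e3, ← e1]
  simp only [e.left_inv ht]
  rfl

theorem GeodEq.congr {G G' : MF n} {x : ℝ → Fin n → ℝ} {t : ℝ} (h : GeodEq G x t)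
    (e : G' =ᶠ[𝓝 (x t)] G) : GeodEq G' x t := by
  intro k
  have hp : ∀ a b c, pd a (fun y => G' y b c) (x t) = pd a (fun y => G y b c) (x t) := by
    intro a b c
    have : (fun y => G' y b c) =ᶠ[𝓝 (x t)] fun y => G y b c := e.mono fun y hy => by
      simp only [hy]
    simp only [pd, this.fderiv_eq]
  simp only [Chr, hp, e.eq_of_nhds]
  exact h k

theorem MData.geodEq {G : MF n} (h : MData M G) {γ : ℝ → M} (hγ : IsGeodesic h.metric γ)
    {e : OpenPartialHomeomorph M (Fin n → ℝ)} (he : e ∈ atlas (Fin n → ℝ) M) {t : ℝ}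
    (ht : γ t ∈ e.source) : GeodEq G (fun s => e (γ s)) t := by
  refine (hγ.2 e he t ht).congr ?_
  filter_upwards [e.open_target.mem_nhds (e.map_source ht)] with y hy
  exact (h.coeff_metric he hy).symm

end Pool.Agent.Lib.MP_3eff7f_gt_h14
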