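import Mathlib

set_option autoImplicit false

namespace Pool.Agent.Lib.MP_3eff7f_gt_h14

open scoped ContDiff Manifold
open MeasureTheory

section Generic

variable (E : Type) [NormedAddCommGroup E] [NormedSpace ℝ E] (M : Type) [TopologicalSpace M]
  [ChartedSpace E M]

/-- Smooth Riemannian metrics on a manifold `M` modelled on `E`. -/
abbrev RMetric [IsManifold 𝓘(ℝ, E) ∞ M] : Type :=
  Bundle.ContMDiffRiemannianMetric 𝓘(ℝ, E) ∞ E (TangentSpace 𝓘(ℝ, E) : M → Type)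

variable {E M}

/-- The value `B(v, w)` of a continuous bilinear form. -/
noncomputable def app₂ {V : Type} [AddCommGroup V] [Module ℝ V] [TopologicalSpace V]
    (B : V →L[ℝ] V →L[ℝ] ℝ) (v w : V) : ℝ :=
  B v w

/-- The inner product `g_q(v, w)` of two tangent vectors at `q`. -/
noncomputable def ip [IsManifold 𝓘(ℝ, E) ∞ M] (g : RMetric E M) (q : M)
    (v w : TangentSpace 𝓘(ℝ, E) q) : ℝ :=
  app₂ (g.inner q) v w

/-- The tangent vector with components `v` in the chart `e`, at the point with coordinates `x`: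
the image of `v` under the differential of the inverse chart. -/
noncomputable def chartVec (e : OpenPartialHomeomorph M E) (x v : E) :
    TangentSpace 𝓘(ℝ, E) (e.symm x) :=
  mfderiv 𝓘(ℝ, E) 𝓘(ℝ, E) e.symm x v

variable (E) in
/-- The velocity vector `γ'(t)` of a curve. -/
noncomputable def vel (γ : ℝ → M) (t : ℝ) : TangentSpace 𝓘(ℝ, E) (γ t) :=
  mfderiv 𝓘(ℝ, ℝ) 𝓘(ℝ, E) γ t (1 : ℝ)

/-- The length `∫ₐᵇ √(g(γ', γ')) dt` of a curve over `[a, b]`. -/
noncomputable def length [IsManifold 𝓘(ℝ, E) ∞ M] (g : RMetric E M) (γ : ℝ → M) (a b : ℝ) :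
    ENNReal :=
  ∫⁻ t in Set.Icc a b, ENNReal.ofReal √(ip g (γ t) (vel E γ t) (vel E γ t))

end Generic

variable {n : ℕ}

/-- The derivative of `f` at `x` along the `i`-th coordinate vector of `ℝⁿ`. -/
noncomputable def pd (i : Fin n) (f : (Fin n → ℝ) → ℝ) (x : Fin n → ℝ) : ℝ :=
  fderiv ℝ f x (Pi.single i 1)

/-- Christoffel symbols `Γᵏᵢⱼ = ½ gᵏˡ (∂ᵢ gⱼₗ + ∂ⱼ gᵢₗ - ∂ₗ gᵢⱼ)` of a metric given in
coordinates. -/
noncomputable def Chr (G : (Fin n → ℝ) → Matrix (Fin n) (Fin n) ℝ) (k i j : Fin n)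
    (x : Fin n → ℝ) : ℝ :=
  1 / 2 * ∑ l, (G x)⁻¹ k l *
    (pd i (fun y => G y j l) x + pd j (fun y => G y i l) x - pd l (fun y => G y i j) x)

/-- The geodesic equation `ẍᵏ + Γᵏᵢⱼ(x) ẋⁱ ẋʲ = 0` at time `t`, for a curve `x` in `ℝⁿ`. -/
def GeodEq (G : (Fin n → ℝ) → Matrix (Fin n) (Fin n) ℝ) (x : ℝ → Fin n → ℝ) (t : ℝ) : Prop :=
  ∀ k, deriv (deriv fun s => x s k) t +
    ∑ i, ∑ j, Chr G k i j (x t) * deriv (fun s => x s i) t * deriv (fun s => x s j) t = 0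

variable {M : Type} [TopologicalSpace M] [ChartedSpace (Fin n → ℝ) M]
  [IsManifold 𝓘(ℝ, Fin n → ℝ) ∞ M]

/-- The matrix `gᵢⱼ(x)` of the metric in the chart `e`. -/
noncomputable def coeff (g : RMetric (Fin n → ℝ) M) (e : OpenPartialHomeomorph M (Fin n → ℝ))
    (x : Fin n → ℝ) : Matrix (Fin n) (Fin n) ℝ :=
  Matrix.of fun i j => ip g (e.symm x) (chartVec e x (Pi.single i 1)) (chartVec e x (Pi.single j 1))

/-- A geodesic: a `C²` curve that solves the geodesic equation in the charts of the atlas. -/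
def IsGeodesic (g : RMetric (Fin n → ℝ) M) (γ : ℝ → M) : Prop :=
  ContMDiff 𝓘(ℝ, ℝ) 𝓘(ℝ, Fin n → ℝ) 2 γ ∧
    ∀ e ∈ atlas (Fin n → ℝ) M, ∀ t : ℝ, γ t ∈ e.source → GeodEq (coeff g e) (fun s => e (γ s)) t

/-- `μ` is the Riemannian volume measure: in every chart it is `√(det gᵢⱼ) dx`. -/
def IsVolume [MeasurableSpace M] (g : RMetric (Fin n → ℝ) M) (μ : Measure M) : Prop :=
  ∀ e ∈ atlas (Fin n → ℝ) M, ∀ A : Set M, MeasurableSet A → A ⊆ e.source →
    μ A = ∫⁻ x in e '' A, ENNReal.ofReal √(coeff g e x).det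

end Pool.Agent.Lib.MP_3eff7f_gt_h14
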