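import Pool.Agent.Lib.MP_3eff7f_gt_h14.Bridge

set_option autoImplicit false

namespace Pool.Agent.Lib.MP_3eff7f_gt_h14

open Filter Topology Matrix Set
open scoped ContDiff

variable {n : ℕ}

theorem fderiv_eq_sum {F : Type} [NormedAddCommGroup F] [NormedSpace ℝ F]
    (L : (Fin n → ℝ) →L[ℝ] F) (v : Fin n → ℝ) : L v = ∑ b, v b • L (Pi.single b 1) := by
  conv_lhs => rw [pi_eq_sum_univ' v]
  simp

theorem bil_eq_sum (A : Matrix (Fin n) (Fin n) ℝ) (v w : Fin n → ℝ) :
    bil A v w = ∑ i, ∑ j, A i j * v i * w j := by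
  simp only [bil_apply, dotProduct, mulVec, Finset.mul_sum]
  exact Finset.sum_congr rfl fun i _ => Finset.sum_congr rfl fun j _ => by ring

theorem hasDerivAt_deriv_of_two {F : Type} [NormedAddCommGroup F] [NormedSpace ℝ F] {x : ℝ → F}
    {t : ℝ} (hx : ContDiffAt ℝ 2 x t) : HasDerivAt (deriv x) (deriv (deriv x) t) t := by
  have h1 : ContDiffAt ℝ 1 (fderiv ℝ x) t := hx.fderiv_right (by norm_num)
  have h2 : ContDiffAt ℝ 1 (deriv x) t := h1.clm_apply contDiffAt_const
  exact (h2.differentiableAt (by simp)).hasDerivAt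

theorem eventually_diff {F : Type} [NormedAddCommGroup F] [NormedSpace ℝ F] {x : ℝ → F}
    {t : ℝ} (hx : ContDiffAt ℝ 2 x t) : ∀ᶠ s in 𝓝 t, DifferentiableAt ℝ x s :=
  (hx.eventually (by simp)).mono fun _ hs => hs.differentiableAt (by simp)

/-- Derivative in the base point of the quadratic form. -/
theorem fderiv_quad {G : MF n} (sm : ∀ i j, ContDiff ℝ ∞ fun x => G x i j) (y v w : Fin n → ℝ) :
    fderiv ℝ (fun y => bil (G y) v v) y w =
      ∑ l, w l * ∑ i, ∑ j, pd l (fun y => G y i j) y * v i * v j := by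
  have h : HasFDerivAt (fun y => bil (G y) v v)
      (∑ i, ∑ j, (v i * v j) • fderiv ℝ (fun y => G y i j) y) y := by
    simp only [bil_eq_sum]
    refine HasFDerivAt.fun_sum fun i _ => HasFDerivAt.fun_sum fun j _ => ?_
    have := (((sm i j).differentiable (by simp)) y).hasFDerivAt.const_mul (v i * v j)
    have e : (fun y => G y i j * v i * v j) = fun y => v i * v j * G y i j := by
      funext y; ring
    rw [e]
    exact this
  rw [h.fderiv, fderiv_eq_sum]
  refine Finset.sum_congr rfl fun l _ => ?_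
  simp only [ContinuousLinearMap.sum_apply, ContinuousLinearMap.smul_apply, smul_eq_mul, pd]
  congr 1
  exact Finset.sum_congr rfl fun i _ => Finset.sum_congr rfl fun j _ => by ring

/-- The Euler-Lagrange form of the geodesic equation, tested on a vector field `w`. -/
theorem GeodEq.el {G : MF n} (sm : ∀ i j, ContDiff ℝ ∞ fun x => G x i j) (pos : ∀ x, (G x).PosDef)
    {x : ℝ → Fin n → ℝ} {t : ℝ} (hx : ContDiffAt ℝ 2 x t) (h : GeodEq G x t)
    {w : ℝ → Fin n → ℝ} {w' : Fin n → ℝ} (hw : HasDerivAt w w' t) :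
    HasDerivAt (fun s => bil (G (x s)) (deriv x s) (w s))
      (1 / 2 * fderiv ℝ (fun y => bil (G y) (deriv x t) (deriv x t)) (x t) (w t) +
        bil (G (x t)) (deriv x t) w') t := by
  have hx1 := (hx.differentiableAt (by simp)).hasDerivAt
  have hx2 := hasDerivAt_deriv_of_two hx
  set v := deriv x t with hv
  set a := deriv (deriv x) t with ha
  have e1 : ∀ i, deriv (fun s => x s i) t = v i := fun i => (hasDerivAt_pi.1 hx1 i).deriv
  have e2 : ∀ i, deriv (deriv fun s => x s i) t = a i := fun i => by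
    have : (deriv fun s => x s i) =ᶠ[𝓝 t] fun s => deriv x s i := by
      filter_upwards [eventually_diff hx] with s hs
      exact (hasDerivAt_pi.1 hs.hasDerivAt i).deriv
    rw [this.deriv_eq]
    exact (hasDerivAt_pi.1 hx2 i).deriv
  let P : Fin n → Fin n → Fin n → ℝ := fun l i j => pd l (fun y => G y i j) (x t)
  have hG : ∀ i j, HasDerivAt (fun s => G (x s) i j) (∑ l, v l * P l i j) t := fun i j => by
    have := (((sm i j).differentiable (by simp)) (x t)).hasFDerivAt.comp_hasDerivAt t hx1
    rw [fderiv_eq_sum] at this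
    exact this
  have hsym : ∀ i j, G (x t) i j = G (x t) j i := fun i j => by
    rw [← bil_single (G (x t)), bil_symm (pos _), bil_single]
  have hu : IsUnit (G (x t)).det := (pos _).det_pos.ne'.isUnit
  have hδ : ∀ j l, ∑ k, G (x t) j k * (G (x t))⁻¹ k l = if j = l then 1 else 0 := fun j l => by
    rw [← mul_apply, mul_nonsing_inv _ hu, one_apply]
  have key : ∀ j, ∑ k, G (x t) k j * a k =
      -(1 / 2 * ∑ p, ∑ q, (P p q j + P q p j - P j p q) * v p * v q) := fun j => by
    have h1 : ∀ k, a k = -∑ p, ∑ q, Chr G k p q (x t) * v p * v q := fun k => by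
      have := h k
      simp only [e1, e2] at this
      linarith
    have h2 : ∀ p q, ∑ k, G (x t) k j * Chr G k p q (x t) = 1 / 2 * (P p q j + P q p j - P j p q) :=
      fun p q => by
        calc ∑ k, G (x t) k j * Chr G k p q (x t)
            = 1 / 2 * ∑ l, (∑ k, G (x t) j k * (G (x t))⁻¹ k l) * (P p q l + P q p l - P l p q) := by
              simp only [Chr, Finset.mul_sum, Finset.sum_mul]
              rw [Finset.sum_comm]
              exact Finset.sum_congr rfl fun l _ => Finset.sum_congr rfl fun k _ => by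
                rw [hsym k j]; ring
          _ = _ := by simp [hδ]
    simp only [h1, mul_neg, Finset.sum_neg_distrib, Finset.mul_sum]
    congr 1
    rw [Finset.sum_comm]
    refine Finset.sum_congr rfl fun p _ => ?_
    rw [Finset.sum_comm]
    refine Finset.sum_congr rfl fun q _ => ?_
    calc ∑ k, G (x t) k j * (Chr G k p q (x t) * v p * v q)
        = (∑ k, G (x t) k j * Chr G k p q (x t)) * v p * v q := by
          simp only [Finset.sum_mul]
          exact Finset.sum_congr rfl fun k _ => by ring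
      _ = _ := by rw [h2]; ring
  simp only [bil_eq_sum (G (x _))]
  have hd : HasDerivAt (fun s => ∑ i, ∑ j, G (x s) i j * deriv x s i * w s j)
      (∑ i, ∑ j, (((∑ l, v l * P l i j) * v i + G (x t) i j * a i) * w t j +
        G (x t) i j * v i * w' j)) t :=
    HasDerivAt.fun_sum fun i _ => HasDerivAt.fun_sum fun j _ =>
      ((hG i j).mul (hasDerivAt_pi.1 hx2 i)).mul (hasDerivAt_pi.1 hw j)
  refine hd.congr_deriv (Eq.symm ?_)
  rw [fderiv_quad sm]
  simp only [Finset.sum_add_distrib, add_mul]
  congr 1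
  rw [Finset.sum_comm, Finset.sum_comm (f := fun i j => G (x t) i j * a i * w t j),
    ← Finset.sum_add_distrib, Finset.mul_sum]
  refine Finset.sum_congr rfl fun j _ => ?_
  rw [← Finset.sum_mul, ← Finset.sum_mul, key j]
  have s1 : ∑ i, (∑ l, v l * P l i j) * v i = ∑ p, ∑ q, P p q j * v p * v q := by
    rw [Finset.sum_comm]
    simp only [Finset.sum_mul]
    exact Finset.sum_congr rfl fun i _ => Finset.sum_congr rfl fun l _ => by ring
  have s2 : ∑ p, ∑ q, P q p j * v p * v q = ∑ p, ∑ q, P p q j * v p * v q := by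
    rw [Finset.sum_comm]
    exact Finset.sum_congr rfl fun i _ => Finset.sum_congr rfl fun l _ => by ring
  simp only [add_mul, sub_mul, Finset.sum_add_distrib, Finset.sum_sub_distrib, s1, s2]
  ring

/-- Conservation of energy. -/
theorem GeodEq.energy {G : MF n} (sm : ∀ i j, ContDiff ℝ ∞ fun x => G x i j)
    (pos : ∀ x, (G x).PosDef) {x : ℝ → Fin n → ℝ} {t : ℝ} (hx : ContDiffAt ℝ 2 x t)
    (h : GeodEq G x t) :
    HasDerivAt (fun s => bil (G (x s)) (deriv x s) (deriv x s)) 0 t := by
  have hx1 := (hx.differentiableAt (by simp)).hasDerivAt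
  have hx2 := hasDerivAt_deriv_of_two hx
  have h1 := h.el sm pos hx hx2
  have hG : ∀ i j, HasDerivAt (fun s => G (x s) i j)
      (∑ l, deriv x t l * pd l (fun y => G y i j) (x t)) t := fun i j => by
    have := (((sm i j).differentiable (by simp)) (x t)).hasFDerivAt.comp_hasDerivAt t hx1
    rw [fderiv_eq_sum] at this
    exact this
  have h2 : HasDerivAt (fun s => bil (G (x s)) (deriv x s) (deriv x s))
      (fderiv ℝ (fun y => bil (G y) (deriv x t) (deriv x t)) (x t) (deriv x t) +
        bil (G (x t)) (deriv (deriv x) t) (deriv x t) +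
        bil (G (x t)) (deriv x t) (deriv (deriv x) t)) t := by
    simp only [bil_eq_sum (G (x _))]
    refine (HasDerivAt.fun_sum fun i (_ : i ∈ Finset.univ) =>
      HasDerivAt.fun_sum fun j (_ : j ∈ Finset.univ) =>
      ((hG i j).mul (hasDerivAt_pi.1 hx2 i)).mul (hasDerivAt_pi.1 hx2 j)).congr_deriv (Eq.symm ?_)
    rw [fderiv_quad sm]
    simp only [Pi.mul_apply, add_mul, Finset.sum_add_distrib]
    congr 2
    simp only [Finset.mul_sum, Finset.sum_mul]
    rw [Finset.sum_comm]
    refine Finset.sum_congr rfl fun i _ => ?_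
    rw [Finset.sum_comm]
    exact Finset.sum_congr rfl fun j _ => Finset.sum_congr rfl fun l _ => by ring
  have h3 := h1.unique h2
  rw [bil_symm (pos _) (deriv (deriv x) t)] at h3
  refine h1.congr_deriv ?_
  linarith

end Pool.Agent.Lib.MP_3eff7f_gt_h14
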