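import Pool.Agent.Lib.MP_3eff7f_gt_h14.Bridge

set_option autoImplicit false

namespace Pool.Agent.Lib.MP_3eff7f_gt_h14

open Filter Topology Matrix Set Bundle MeasureTheory
open scoped ContDiff Manifold

variable {n : ℕ} {M : Type} [TopologicalSpace M] [ChartedSpace (Fin n → ℝ) M]
  [MeasurableSpace M] [BorelSpace M]

/-- The volume density of a metric in coordinates. -/
noncomputable def dens (G : MF n) (x : Fin n → ℝ) : ENNReal := ENNReal.ofReal √(G x).det

/-- The measure of one chart. -/
noncomputable def muc (G : MF n) (e : OpenPartialHomeomorph M (Fin n → ℝ)) : Measure M :=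
  Measure.map e.symm ((volume.restrict e.target).withDensity (dens G))

theorem muc_apply (G : MF n) (e : OpenPartialHomeomorph M (Fin n → ℝ)) {A : Set M}
    (hA : MeasurableSet A) (hs : A ⊆ e.source) : muc G e A = ∫⁻ y in e '' A, dens G y := by
  have h1 : AEMeasurable e.symm ((volume.restrict e.target).withDensity (dens G)) :=
    (e.continuousOn_symm.aemeasurable e.open_target.measurableSet).mono_ac
      (withDensity_absolutelyContinuous _ _)
  rw [muc, Measure.map_apply_of_aemeasurable h1 hA, withDensity_apply',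
    Measure.restrict_restrict' e.open_target.measurableSet,
    e.image_eq_target_inter_inv_preimage hs, inter_comm]

theorem measurableSet_img (e : OpenPartialHomeomorph M (Fin n → ℝ)) {A : Set M}
    (hA : MeasurableSet A) (hs : A ⊆ e.source) : MeasurableSet (e '' A) := by
  have ht := e.open_target.measurableSet
  have hc : Continuous fun y : e.target => e.symm y :=
    continuousOn_iff_continuous_domRestrict.1 e.continuousOn_symm
  have := (MeasurableEmbedding.subtype_coe ht).measurableSet_image.2 (hA.preimage hc.measurable)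
  convert this using 1
  rw [e.image_eq_target_inter_inv_preimage hs]
  ext y
  simp only [mem_inter_iff, mem_preimage, mem_image, Subtype.exists, exists_and_right,
    exists_eq_right]
  exact ⟨fun h => ⟨h.1, h.2⟩, fun ⟨h1, h2⟩ => ⟨h1, h2⟩⟩

variable [IsManifold 𝓘(ℝ, Fin n → ℝ) ∞ M]

theorem MData.muc_agree {G : MF n} (h : MData M G) {e e' : OpenPartialHomeomorph M (Fin n → ℝ)}
    (he : e ∈ atlas (Fin n → ℝ) M) (he' : e' ∈ atlas (Fin n → ℝ) M) {A : Set M}
    (hA : MeasurableSet A) (hs : A ⊆ e.source) (hs' : A ⊆ e'.source) :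
    muc G e' A = muc G e A := by
  rw [muc_apply G e hA hs, muc_apply G e' hA hs']
  have him : e' '' A = (fun y => e' (e.symm y)) '' (e '' A) := by
    rw [image_image]
    exact image_congr fun a ha => by rw [e.left_inv (hs ha)]
  have hinj : InjOn (fun y => e' (e.symm y)) (e '' A) := by
    rintro _ ⟨a, ha, rfl⟩ _ ⟨b, hb, rfl⟩ hab
    simp only [e.left_inv (hs ha), e.left_inv (hs hb)] at hab
    rw [e'.injOn (hs' ha) (hs' hb) hab]
  have hm : ∀ y ∈ e '' A, y ∈ e.target ∧ e.symm y ∈ e'.source := by
    rintro _ ⟨a, ha, rfl⟩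
    exact ⟨e.map_source (hs ha), by rw [e.left_inv (hs ha)]; exact hs' ha⟩
  rw [him, lintegral_image_eq_lintegral_abs_det_fderiv_mul volume (measurableSet_img e hA hs)
    (fun y hy => ((contDiffAt_tr he he' (hm y hy).1 (hm y hy).2).differentiableAt
      (by simp)).hasFDerivAt.hasFDerivWithinAt) hinj]
  refine setLIntegral_congr_fun (measurableSet_img e hA hs) fun y hy => ?_
  simp only [dens]
  rw [← ENNReal.ofReal_mul (abs_nonneg _), (h.compat e he e' he' y (hm y hy).1 (hm y hy).2).det,
    Real.sqrt_mul (sq_nonneg _), Real.sqrt_sq_eq_abs]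

theorem MData.isVolume_iff {G : MF n} (h : MData M G) {μ : Measure M} :
    IsVolume h.metric μ ↔ ∀ e ∈ atlas (Fin n → ℝ) M, ∀ A : Set M, MeasurableSet A →
      A ⊆ e.source → μ A = ∫⁻ x in e '' A, dens G x := by
  refine forall₂_congr fun e he => forall₃_congr fun A hA hs => ?_
  rw [setLIntegral_congr_fun (measurableSet_img e hA hs) (g := dens G)]
  rintro _ ⟨a, ha, rfl⟩
  simp only [dens, h.coeff_metric he (e.map_source (hs ha))]

theorem MData.exists_volume [CompactSpace M] [Nonempty M] {G : MF n} (h : MData M G) :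
    ∃ μ : Measure M, IsVolume h.metric μ := by
  have hms : ∀ x : M, MeasurableSet (chartAt (Fin n → ℝ) x).source :=
    fun x => (chartAt (Fin n → ℝ) x).open_source.measurableSet
  obtain ⟨t, ht⟩ := isCompact_univ.elim_finite_subcover
    (fun x : M => (chartAt (Fin n → ℝ) x).source) (fun x => (chartAt (Fin n → ℝ) x).open_source)
    (fun x _ => mem_iUnion.2 ⟨x, mem_chart_source _ x⟩)
  obtain ⟨x⟩ := ‹Nonempty M›
  obtain ⟨c, hc⟩ := (insert x (t : Set M)).toFinite.countable.exists_eq_range (insert_nonempty _ _)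
  let W : ℕ → Set M := disjointed fun k => (chartAt (Fin n → ℝ) (c k)).source
  have hWm : ∀ k, MeasurableSet (W k) := MeasurableSet.disjointed fun k => hms _
  have hWs : ∀ k, W k ⊆ (chartAt (Fin n → ℝ) (c k)).source := fun k =>
    disjointed_subset (fun k => (chartAt (Fin n → ℝ) (c k)).source) k
  have hWd : Pairwise (Function.onFun Disjoint W) := disjoint_disjointed _
  have hWu : ⋃ k, W k = univ := by
    rw [iUnion_disjointed, eq_univ_iff_forall]
    intro z
    obtain ⟨p, hp, hz⟩ := mem_iUnion₂.1 (ht (mem_univ z))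
    obtain ⟨k, rfl⟩ : p ∈ range c := hc ▸ mem_insert_of_mem _ hp
    exact mem_iUnion.2 ⟨k, hz⟩
  refine ⟨Measure.sum fun k => (muc G (chartAt (Fin n → ℝ) (c k))).restrict (W k),
    h.isVolume_iff.2 fun e he A hA hs => ?_⟩
  rw [Measure.sum_apply _ hA, ← muc_apply G e hA hs]
  have : ∀ k, (muc G (chartAt (Fin n → ℝ) (c k))).restrict (W k) A = muc G e (A ∩ W k) := by
    intro k
    rw [Measure.restrict_apply hA]
    exact h.muc_agree he (chart_mem_atlas _ _) (hA.inter (hWm k)) (fun z hz => hs hz.1)
      (fun z hz => hWs k hz.2)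
  simp only [this]
  rw [← measure_iUnion (hWd.mono fun i j hij => hij.mono inter_subset_right inter_subset_right)
    (fun k => hA.inter (hWm k)), ← inter_iUnion, hWu, inter_univ]

end Pool.Agent.Lib.MP_3eff7f_gt_h14
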