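import Pool.Agent.Lib.MP_3eff7f_gt_h14.Lift
import Pool.Agent.Lib.MP_3eff7f_gt_h14.Vol

set_option autoImplicit false

namespace Pool.Agent.Lib.MP_3eff7f_gt_h14

open Filter Topology Matrix Set Real MeasureTheory
open scoped ContDiff MatrixGroups Manifold

theorem dens_le {η r : ℝ} (h0 : 0 < η) (h1 : η ≤ 1 / 4) {x : E4} (hx : tt x ≤ 6 / 5)
    (hr : η / mu η (tt x) ≤ r) : dens (GG η) x ≤ ENNReal.ofReal (3 * r) := by
  have hm := mu_pos h0 h1 (tt_nonneg x)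
  have hl := le_mu h0 (tt x)
  have hm2 : mu η (tt x) ≤ 6 / 5 := (mu_mono h0 h1 hx).trans (mu_eq η (by norm_num)).le
  have hq : 0 < η / mu η (tt x) := div_pos h0 hm
  have hL : Lf (tt x) ≤ (6 / 5) ^ 2 := by
    have a := (mu_mono (η := 1 / 4) (by norm_num) le_rfl hx).trans (mu_eq _ (by norm_num)).le
    have b := mu_pos (η := 1 / 4) (by norm_num) le_rfl (tt_nonneg x)
    unfold Lf
    gcongr
  have hB : η * (η + Bf η (tt x) * tt x) ≤ 6 * (η / mu η (tt x)) := by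
    have e : η * (η + Bf η (tt x) * tt x) = η / mu η (tt x) *
        (η * (mu η (tt x) - tt x) + 4 * (tt x / mu η (tt x))) := by
      unfold Bf; field_simp; ring
    have a : tt x / mu η (tt x) ≤ 1 := (div_le_one hm).2 hl
    have b : η * (mu η (tt x) - tt x) ≤ 1 := by nlinarith [tt_nonneg x]
    rw [e]
    nlinarith
  refine ENNReal.ofReal_le_ofReal (sqrt_le_iff.2 ⟨by linarith, ?_⟩)
  rw [GG, det_Gm, Hf]
  have := (Lf_pos x).le
  calc _ ≤ 6 * (η / mu η (tt x)) * (6 / 5) ^ 2 * (η / mu η (tt x)) := by gcongr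
    _ ≤ 6 * r * (6 / 5) ^ 2 * r := by
      have := hq.le.trans hr
      gcongr
    _ ≤ _ := by nlinarith [sq_nonneg r]

theorem volume_slab {a : ℝ} (ha : 0 ≤ a) (b : ℝ) :
    volume {x : E4 | tt x ≤ a ^ 2 ∧ x 2 ∈ Icc (-(1 / 2)) (1 / 2) ∧ x 3 ∈ Icc b (b + π)} ≤
      ENNReal.ofReal (16 * a ^ 2) := by
  refine (measure_mono (t := Icc ![-a, -a, -(1 / 2), b] ![a, a, 1 / 2, b + π]) ?_).trans ?_
  · rintro x ⟨h1, h2, h3⟩
    unfold tt at h1
    have a0 := abs_le_of_sq_le_sq' (show x 0 ^ 2 ≤ a ^ 2 by nlinarith [sq_nonneg (x 1)]) ha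
    have a1 := abs_le_of_sq_le_sq' (show x 1 ^ 2 ≤ a ^ 2 by nlinarith [sq_nonneg (x 0)]) ha
    constructor <;> intro i <;> fin_cases i
    exacts [a0.1, a1.1, h2.1, h3.1, a0.2, a1.2, h2.2, h3.2]
  · rw [volume_Icc_pi, ← ENNReal.ofReal_prod_of_nonneg]
    · refine ENNReal.ofReal_le_ofReal ?_
      simp [Fin.prod_univ_four]
      nlinarith [pi_le_four, sq_nonneg a]
    · intro i _
      fin_cases i <;> simp [ha, pi_pos.le]

theorem lintegral_slab {ε : ℝ} (h0 : 0 < ε) (h1 : ε ≤ 1 / 2) (b : ℝ) :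
    ∫⁻ x in {x : E4 | tt x ≤ 6 / 5 ∧ x 2 ∈ Icc (-(1 / 2)) (1 / 2) ∧ x 3 ∈ Icc b (b + π)},
      dens (GG (ε ^ 4)) x ≤ ENNReal.ofReal ((48 / kap + 192) * ε ^ 2) := by
  have a0 : 0 < ε ^ 4 := by positivity
  have a1 : ε ^ 4 ≤ 1 / 4 := (pow_le_pow_left₀ h0.le h1 4).trans (by norm_num)
  have hk := kap_pos
  set B := {x : E4 | tt x ≤ 6 / 5 ∧ x 2 ∈ Icc (-(1 / 2)) (1 / 2) ∧ x 3 ∈ Icc b (b + π)}
  have hB : MeasurableSet B := isCompact_slab.measurableSet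
  have hS : MeasurableSet {x : E4 | tt x ≤ ε ^ 2} :=
    (isClosed_le contDiff_tt.continuous continuous_const).measurableSet
  rw [← lintegral_inter_add_diff _ B hS]
  have b1 : ∫⁻ x in B ∩ {x : E4 | tt x ≤ ε ^ 2}, dens (GG (ε ^ 4)) x ≤
      ENNReal.ofReal (3 * kap⁻¹) * ENNReal.ofReal (16 * ε ^ 2) := by
    refine (setLIntegral_mono' (hB.inter hS) fun x hx => dens_le a0 a1 hx.1.1 (r := kap⁻¹) ?_).trans ?_
    · rw [div_le_iff₀ (mu_pos a0 a1 (tt_nonneg x)), inv_mul_eq_div, le_div_iff₀ hk]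
      exact kap_le_mu a0 a1 (tt_nonneg x)
    · rw [setLIntegral_const]
      gcongr
      exact le_trans (measure_mono fun x hx => And.intro hx.2 hx.1.2) (volume_slab h0.le b)
  have b2 : ∫⁻ x in B \ {x : E4 | tt x ≤ ε ^ 2}, dens (GG (ε ^ 4)) x ≤
      ENNReal.ofReal (3 * ε ^ 2) * ENNReal.ofReal (16 * 2 ^ 2) := by
    refine (setLIntegral_mono' (hB.diff hS) fun x hx => dens_le a0 a1 hx.1.1 (r := ε ^ 2) ?_).trans ?_
    · rw [div_le_iff₀ (mu_pos a0 a1 (tt_nonneg x))]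
      have : ε ^ 2 ≤ mu (ε ^ 4) (tt x) := (not_le.1 hx.2).le.trans (le_mu a0 _)
      nlinarith [sq_nonneg ε]
    · rw [setLIntegral_const]
      gcongr
      exact le_trans (measure_mono fun x hx => And.intro (hx.1.1.trans (by norm_num)) hx.1.2)
        (volume_slab two_pos.le b)
  refine (add_le_add b1 b2).trans ?_
  rw [← ENNReal.ofReal_mul (by positivity), ← ENNReal.ofReal_mul (by positivity),
    ← ENNReal.ofReal_add (by positivity) (by positivity)]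
  exact ENNReal.ofReal_le_ofReal (le_of_eq (by ring))

theorem volume_le [MeasurableSpace MM] [BorelSpace MM] : ∃ A : ℝ, 0 < A ∧ ∀ (ε : ℝ) (_ : 0 < ε)
    (_ : ε ≤ 1 / 2) (a0 : 0 < ε ^ 4) (a1 : ε ^ 4 ≤ 1 / 4) (μ : Measure MM),
      IsVolume (mdata a0 a1).metric μ → μ univ ≤ ENNReal.ofReal (A * ε ^ 2) := by
  have := Fintype.ofFinite KK
  have hk := kap_pos
  refine ⟨Fintype.card KK * (2 * (48 / kap + 192)) + 1, by positivity,
    fun ε h0 h1 a0 a1 μ hμ => ?_⟩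
  let B : ℝ → Set E4 := fun b =>
    {x : E4 | tt x ≤ 6 / 5 ∧ x 2 ∈ Icc (-(1 / 2)) (1 / 2) ∧ x 3 ∈ Icc b (b + π)}
  have hB : ∀ k b, μ (Phi k '' B b) ≤ ENNReal.ofReal ((48 / kap + 192) * ε ^ 2) := fun k b => by
    have hN : B b ⊆ NN ![0, 0, 0, b + π / 2] := by
      rintro x ⟨c1, c2, c3⟩
      refine ⟨c1.trans_lt (by norm_num), abs_lt.2 ?_, abs_lt.2 ?_⟩ <;>
        constructor <;> simp <;> linarith [c2.1, c2.2, c3.1, c3.2, pi_pos]
    have hc : IsCompact (Phi k '' B b) := isCompact_slab.image_of_continuousOn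
      ((continuousOn_Phi k).mono fun x hx => (hN hx).1)
    rw [(mdata a0 a1).isVolume_iff.1 hμ _ (chart_mem k _) _ hc.measurableSet (image_mono hN),
      image_image, image_congr fun x hx => chart_Phi k (hN hx), image_id']
    exact lintegral_slab h0 h1 b
  have hU : (univ : Set MM) ⊆ ⋃ k, (Phi k '' B 0 ∪ Phi k '' B π) := fun p _ => by
    obtain ⟨k, x, ⟨c1, c2, c3⟩, rfl⟩ := exists_box p
    refine mem_iUnion.2 ⟨k, ?_⟩
    rcases le_total (x 3) π with h | h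
    · exact Or.inl ⟨x, ⟨c1, abs_le.1 c2, c3.1, by linarith⟩, rfl⟩
    · exact Or.inr ⟨x, ⟨c1, abs_le.1 c2, h, by linarith [c3.2]⟩, rfl⟩
  refine (measure_mono hU).trans ((measure_iUnion_fintype_le _ _).trans ?_)
  refine (Finset.sum_le_card_nsmul _ _ _ fun k _ =>
    (measure_union_le _ _).trans (add_le_add (hB k 0) (hB k π))).trans ?_
  rw [← ENNReal.ofReal_add (by positivity) (by positivity), ← ENNReal.ofReal_nsmul]
  refine ENNReal.ofReal_le_ofReal ?_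
  rw [nsmul_eq_mul, Finset.card_univ]
  nlinarith [sq_nonneg ε]

theorem main [MeasurableSpace MM] [BorelSpace MM] {C : ℝ} (hC : 0 < C) :
    ∃ (g : RMetric E4 MM) (μ : Measure MM), IsVolume g μ ∧
      ∀ (γ : ℝ → MM) (T : ℝ), IsGeodesic g γ → (∃ s t, γ s ≠ γ t) → 0 < T →
        Function.Periodic γ T →
        ENNReal.ofReal C * μ univ ^ (1 / 4 : ℝ) < length g γ 0 T := by
  obtain ⟨A, hA, h⟩ := volume_le
  have hk := kap_pos
  let ε := min (1 / 2) ((kap / 16 / C) ^ 4 / A)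
  have h0 : 0 < ε := lt_min (by norm_num) (by positivity)
  have h1 : ε ≤ 1 / 2 := min_le_left _ _
  have h2 : A * ε ≤ (kap / 16 / C) ^ 4 := by
    rw [mul_comm, ← le_div_iff₀ hA]
    exact min_le_right _ _
  have a0 : 0 < ε ^ 4 := by positivity
  have a1 : ε ^ 4 ≤ 1 / 4 := (pow_le_pow_left₀ h0.le h1 4).trans (by norm_num)
  obtain ⟨μ, hμ⟩ := (mdata a0 a1).exists_volume
  refine ⟨_, μ, hμ, fun γ T hγ hn hT hp => lt_of_le_of_lt ?_ (length_gt a0 a1 hγ hT hp hn)⟩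
  have h3 : μ univ ≤ ENNReal.ofReal (kap / 16 / C) ^ 4 := by
    rw [← ENNReal.ofReal_pow (by positivity)]
    exact (h ε h0 h1 a0 a1 μ hμ).trans (ENNReal.ofReal_le_ofReal (by nlinarith [mul_pos hA h0]))
  calc _ ≤ ENNReal.ofReal C * (ENNReal.ofReal (kap / 16 / C) ^ 4) ^ (1 / 4 : ℝ) := by gcongr
    _ = _ := by
      rw [one_div, show (4 : ℝ) = (4 : ℕ) by norm_num, ENNReal.pow_rpow_inv_natCast (by norm_num),
        ← ENNReal.ofReal_mul hC.le, mul_div_cancel₀ _ hC.ne']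

end Pool.Agent.Lib.MP_3eff7f_gt_h14
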