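import Pool.Agent.Lib.MP_3eff7f_gt_h14.Iso

set_option autoImplicit false

namespace Pool.Agent.Lib.MP_3eff7f_gt_h14

open Filter Topology Matrix Set Real
open scoped ContDiff MatrixGroups Manifold

/-- The finite set of sheets. -/
def KK : Type := SL(2, ℤ) ⧸ CongruenceSubgroup.Gamma 3

instance : MulAction SL(2, ℤ) KK :=
  inferInstanceAs (MulAction SL(2, ℤ) (SL(2, ℤ) ⧸ CongruenceSubgroup.Gamma 3))

instance : Finite KK := inferInstanceAs (Finite (SL(2, ℤ) ⧸ CongruenceSubgroup.Gamma 3))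

instance : TopologicalSpace KK := ⊥

instance : DiscreteTopology KK := ⟨rfl⟩

/-- The base sheet. -/
def k0 : KK := QuotientGroup.mk 1

theorem exists_smul_k0 (k : KK) : ∃ σ : SL(2, ℤ), k = σ • k0 := by
  obtain ⟨σ, rfl⟩ := QuotientGroup.mk_surjective k
  exact ⟨σ, congrArg QuotientGroup.mk (mul_one σ).symm⟩

theorem mem_gamma {σ : SL(2, ℤ)} {k : KK} (h : k = σ • k) : σ ∈ CongruenceSubgroup.Gamma 3 := by
  obtain ⟨g, rfl⟩ := QuotientGroup.mk_surjective k
  have h1 : g⁻¹ * (σ * g) ∈ CongruenceSubgroup.Gamma 3 := QuotientGroup.eq.1 h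
  have := (CongruenceSubgroup.Gamma_normal 3).conj_mem _ h1 g
  simpa [mul_assoc] using this

/-- The coordinate domain. -/
def UU : Set E4 := {x | tt x < 2}

theorem isOpen_UU : IsOpen UU := isOpen_lt contDiff_tt.continuous continuous_const

theorem zero_mem_UU : (0 : E4) ∈ UU := by simp [UU, tt]

/-- The gluing relation. -/
def glue : Setoid (KK × UU) where
  r p q := ∃ σ : SL(2, ℤ), q.1 = σ • p.1 ∧ Rel σ p.2 q.2
  iseqv :=
    { refl := fun p => ⟨1, (one_smul _ _).symm, .refl _⟩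
      symm := fun ⟨σ, h1, h2⟩ => ⟨σ⁻¹, by rw [h1, inv_smul_smul], h2.symm⟩
      trans := fun ⟨σ, h1, h2⟩ ⟨σ', h3, h4⟩ => ⟨σ' * σ, by rw [h3, h1, mul_smul], h2.trans h4⟩ }

/-- The manifold. -/
def MM : Type := Quotient glue

instance : TopologicalSpace MM := inferInstanceAs (TopologicalSpace (Quotient glue))

/-- The projection. -/
def mk (p : KK × UU) : MM := Quotient.mk glue p

theorem isQuotientMap_mk : IsQuotientMap mk := isQuotientMap_quotient_mk'

theorem mk_eq {p q : KK × UU} : mk p = mk q ↔ ∃ σ : SL(2, ℤ), q.1 = σ • p.1 ∧ Rel σ p.2 q.2 :=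
  Quotient.eq

theorem isOpenMap_mk : IsOpenMap mk := by
  intro V hV
  rw [← isQuotientMap_mk.isOpen_preimage, isOpen_iff_mem_nhds]
  rintro ⟨k, x⟩ ⟨⟨k', x'⟩, hq, e⟩
  obtain ⟨σ, h1, h2⟩ := mk_eq.1 e.symm
  obtain ⟨F, F1, F2, F3, -⟩ := h2.locIso x.2 x'.2
  have h3 : (fun y : UU => (k', y)) ⁻¹' V ∈ 𝓝 x' :=
    (Continuous.prodMk_right k').continuousAt.preimage_mem_nhds (hV.mem_nhds hq)
  obtain ⟨W, hW, h4⟩ := (mem_nhds_subtype _ _ _).1 h3
  have h5 : ∀ᶠ y in 𝓝 (x : E4), Rel σ y (F y) ∧ F y ∈ W ∧ F y ∈ UU :=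
    F3.and (F2.continuousAt.eventually (by
      rw [F1]
      exact inter_mem hW (isOpen_UU.mem_nhds x'.2)))
  rw [nhds_prod_eq, nhds_discrete]
  refine mem_of_superset (prod_mem_prod (mem_pure.2 (mem_singleton k))
    (continuous_subtype_val.continuousAt.preimage_mem_nhds h5)) ?_
  rintro ⟨_, y⟩ ⟨rfl, a, b, c⟩
  refine ⟨(k', ⟨F y, c⟩), h4 b, Eq.symm (mk_eq.2 ⟨σ, h1, a⟩)⟩

instance : T2Space MM := by
  rw [t2Space_iff_of_isOpenQuotientMap ⟨isQuotientMap_mk.surjective, isQuotientMap_mk.continuous,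
    isOpenMap_mk⟩]
  simp only [mk_eq, setOf_exists]
  refine LocallyFinite.isClosed_iUnion (fun q => ?_) fun σ => ?_
  · let R := max |q.1.2.1 2| |q.2.2.1 2| + 1
    have c0 : Continuous fun p : KK × UU => |p.2.1 2| :=
      ((continuous_apply 2).comp (continuous_subtype_val.comp continuous_snd)).abs
    have o1 : IsOpen {p : (KK × UU) × (KK × UU) | |p.1.2.1 2| < R} :=
      isOpen_lt (c0.comp continuous_fst) continuous_const
    have o2 : IsOpen {p : (KK × UU) × (KK × UU) | |p.2.2.1 2| < R} :=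
      isOpen_lt (c0.comp continuous_snd) continuous_const
    have m1 : |q.1.2.1 2| < R := lt_add_of_le_of_pos (le_max_left _ _) one_pos
    have m2 : |q.2.2.1 2| < R := lt_add_of_le_of_pos (le_max_right _ _) one_pos
    refine ⟨_, (o1.inter o2).mem_nhds ⟨m1, m2⟩, (finite_bdd ((2 + 2 * R) ^ 2 + 1)).subset ?_⟩
    rintro σ ⟨p, ⟨-, h⟩, h1, h2⟩
    exact h.1.bound p.1.2.2 p.2.2.2 h1.le h2.le
  · refine (isClosed_eq (by fun_prop) ?_).inter ((isClosed_rel σ).preimage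
      (f := fun q : (KK × UU) × (KK × UU) => ((q.1.2 : E4), (q.2.2 : E4))) (by fun_prop))
    exact (continuous_of_discreteTopology (f := fun k : KK => σ • k)).comp (by fun_prop)

open Classical in
/-- The parametrisation of a sheet. -/
noncomputable def Phi (k : KK) (x : E4) : MM :=
  if h : x ∈ UU then mk (k, ⟨x, h⟩) else mk (k, ⟨0, zero_mem_UU⟩)

theorem Phi_of_mem (k : KK) {x : E4} (h : x ∈ UU) : Phi k x = mk (k, ⟨x, h⟩) := dif_pos h

theorem Phi_eq {k k' : KK} {x x' : E4} (h : x ∈ UU) (h' : x' ∈ UU) :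
    Phi k x = Phi k' x' ↔ ∃ σ : SL(2, ℤ), k' = σ • k ∧ Rel σ x x' := by
  rw [Phi_of_mem k h, Phi_of_mem k' h', mk_eq]

theorem exists_Phi (p : MM) : ∃ q : KK × E4, q.2 ∈ UU ∧ Phi q.1 q.2 = p := by
  obtain ⟨⟨k, x⟩, rfl⟩ := isQuotientMap_mk.surjective p
  exact ⟨(k, x), x.2, Phi_of_mem k x.2⟩

theorem continuousOn_Phi (k : KK) : ContinuousOn (Phi k) UU := by
  rw [continuousOn_iff_continuous_domRestrict]
  have : UU.domRestrict (Phi k) = mk ∘ fun x => (k, x) := funext fun x => Phi_of_mem k x.2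
  rw [this]
  exact isQuotientMap_mk.continuous.comp (by fun_prop)

theorem isOpen_Phi (k : KK) {V : Set E4} (hV : IsOpen V) (h : V ⊆ UU) : IsOpen (Phi k '' V) := by
  have : Phi k '' V = mk '' ({k} ×ˢ (Subtype.val ⁻¹' V)) := by
    ext p
    constructor
    · rintro ⟨x, hx, rfl⟩
      exact ⟨(k, ⟨x, h hx⟩), ⟨rfl, hx⟩, (Phi_of_mem k _).symm⟩
    · rintro ⟨⟨_, x⟩, ⟨rfl, hx⟩, rfl⟩
      exact ⟨x, hx, Phi_of_mem _ x.2⟩
  rw [this]
  exact isOpenMap_mk _ ((isOpen_discrete _).prod (hV.preimage continuous_subtype_val))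

theorem Phi_same {k : KK} {x x' : E4} (h : x ∈ UU) (h' : x' ∈ UU) (e : Phi k x = Phi k x')
    (hθ : |x' 2 - x 2| < 3) :
    x' 0 = x 0 ∧ x' 1 = x 1 ∧ x' 2 = x 2 ∧ ∃ n : ℤ, x' 3 = x 3 + 2 * π * n := by
  obtain ⟨σ, h1, h2⟩ := (Phi_eq h h').1 e
  exact h2.gamma h h' (mem_gamma h1) hθ

/-- The target of a chart. -/
def NN (a : E4) : Set E4 := {x | x ∈ UU ∧ |x 2 - a 2| < 1 ∧ |x 3 - a 3| < π}

theorem isOpen_NN (a : E4) : IsOpen (NN a) := by
  have o1 : IsOpen {x : E4 | |x 2 - a 2| < 1} := isOpen_lt (by fun_prop) continuous_const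
  have o2 : IsOpen {x : E4 | |x 3 - a 3| < π} := isOpen_lt (by fun_prop) continuous_const
  exact isOpen_UU.inter (o1.inter o2)

theorem mem_NN {a : E4} (h : a ∈ UU) : a ∈ NN a := ⟨h, by simp, by simp [pi_pos]⟩

theorem injOn_Phi (k : KK) (a : E4) : InjOn (Phi k) (NN a) := by
  rintro x ⟨h1, h2, h3⟩ x' ⟨h4, h5, h6⟩ e
  rw [abs_lt] at h2 h3 h5 h6
  obtain ⟨e0, e1, e2, n, e3⟩ := Phi_same h1 h4 e (abs_lt.2 ⟨by linarith, by linarith⟩)
  have hn : n = 0 := by
    have a1 : (n : ℝ) < 1 := by nlinarith [pi_pos]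
    have a2 : (-1 : ℝ) < n := by nlinarith [pi_pos]
    have a3 : n < 1 := by exact_mod_cast a1
    have a4 : -1 < n := by exact_mod_cast a2
    omega
  ext i
  fin_cases i
  exacts [e0.symm, e1.symm, e2.symm, by simpa [hn] using e3.symm]

/-- The charts. -/
noncomputable def chart (k : KK) (a : E4) : OpenPartialHomeomorph MM E4 :=
  (OpenPartialHomeomorph.ofContinuousOpenRestrict ((injOn_Phi k a).toPartialEquiv _ _)
    ((continuousOn_Phi k).mono fun _ h => h.1) (fun V hV => by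
      have : (NN a).domRestrict (Phi k) '' V = Phi k '' (Subtype.val '' V) := by
        rw [image_image]; rfl
      exact this ▸ isOpen_Phi k ((isOpen_NN a).isOpenMap_subtype_val V hV) (by
        rintro _ ⟨x, -, rfl⟩
        exact x.2.1)) (isOpen_NN a)).symm

theorem chart_symm (k : KK) (a : E4) : ⇑(chart k a).symm = Phi k := rfl

theorem chart_target (k : KK) (a : E4) : (chart k a).target = NN a := rfl

theorem chart_source (k : KK) (a : E4) : (chart k a).source = Phi k '' NN a := rfl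

theorem chart_Phi (k : KK) {a x : E4} (h : x ∈ NN a) : chart k a (Phi k x) = x :=
  (chart k a).right_inv h

theorem Phi_chart {k : KK} {a : E4} {p : MM} (h : p ∈ (chart k a).source) :
    Phi k (chart k a p) = p :=
  (chart k a).left_inv h

noncomputable instance : ChartedSpace E4 MM where
  atlas := {e | ∃ k a, chart k a = e}
  chartAt p := chart (exists_Phi p).choose.1 (exists_Phi p).choose.2
  mem_chart_source p := ⟨_, mem_NN (exists_Phi p).choose_spec.1, (exists_Phi p).choose_spec.2⟩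
  chart_mem_atlas _ := ⟨_, _, rfl⟩

theorem chart_mem (k : KK) (a : E4) : chart k a ∈ atlas E4 MM := ⟨k, a, rfl⟩

theorem transition {e e' : OpenPartialHomeomorph MM E4} (he : e ∈ atlas E4 MM)
    (he' : e' ∈ atlas E4 MM) {x : E4} (hx : x ∈ e.target) (hx' : e.symm x ∈ e'.source) :
    ContDiffAt ℝ ∞ (fun y => e' (e.symm y)) x ∧
      ∀ η, 0 < η → η ≤ 1 / 4 → Pull (GG η) (fun y => e' (e.symm y)) x := by
  obtain ⟨k, a, rfl⟩ := he
  obtain ⟨k', a', rfl⟩ := he'
  obtain ⟨x', h1, h2⟩ := hx'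
  obtain ⟨σ, h3, h4⟩ := (Phi_eq hx.1 h1.1).1 h2.symm
  obtain ⟨F, F1, F2, F3, F4⟩ := h4.locIso hx.1 h1.1
  have : (fun y => chart k' a' ((chart k a).symm y)) =ᶠ[𝓝 x] F := by
    filter_upwards [F3, isOpen_UU.mem_nhds hx.1, F2.continuousAt.eventually
      (show ∀ᶠ y in 𝓝 (F x), y ∈ NN a' from F1 ▸ (isOpen_NN a').mem_nhds h1)] with y a b c
    rw [chart_symm, (Phi_eq b c.1).2 ⟨σ, h3, a⟩, chart_Phi k' c]
  exact ⟨F2.congr_of_eventuallyEq this, fun η h0 h1 => (F4 η h0 h1).congr this⟩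

instance : IsManifold 𝓘(ℝ, E4) ∞ MM := by
  refine isManifold_of_contDiffOn _ _ _ ?_
  rintro e e' he he' x ⟨⟨h1, h2⟩, -⟩
  exact (transition he he' h1 h2).1.contDiffWithinAt

theorem mdata {η : ℝ} (h0 : 0 < η) (h1 : η ≤ 1 / 4) : MData MM (GG η) where
  sm := GG_sm h0 h1
  pos := GG_pos h0 h1
  compat _ he _ he' _ hx hx' := (transition he he' hx hx').2 η h0 h1

/-- The compact box that meets all orbits. -/
def Box : Set E4 := {x | tt x ≤ 6 / 5 ∧ |x 2| ≤ 1 / 2 ∧ x 3 ∈ Icc 0 (2 * π)}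

theorem Box_subset : Box ⊆ UU := fun _ h => h.1.trans_lt (by norm_num)

theorem isCompact_slab {a b c d e : ℝ} :
    IsCompact {x : E4 | tt x ≤ a ∧ x 2 ∈ Icc b c ∧ x 3 ∈ Icc d e} := by
  have := contDiff_tt.continuous
  refine (isCompact_univ_pi fun i => isCompact_Icc
    (a := ![-(|a| + 1), -(|a| + 1), b, d] i) (b := ![|a| + 1, |a| + 1, c, e] i)).of_isClosed_subset
    ((isClosed_le this continuous_const).inter ((isClosed_Icc.preimage (by fun_prop)).inter
      (isClosed_Icc.preimage (by fun_prop)))) ?_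
  rintro x ⟨h1, h2, h3⟩ i -
  have := le_abs_self a
  have := abs_nonneg a
  unfold tt at h1
  fin_cases i
  · constructor <;> simp <;> nlinarith [sq_nonneg (x 1)]
  · constructor <;> simp <;> nlinarith [sq_nonneg (x 0)]
  · exact h2
  · exact h3

theorem isCompact_Box : IsCompact Box := by
  simpa only [Box, abs_le, mem_Icc] using
    isCompact_slab (a := 6 / 5) (b := -(1 / 2)) (c := 1 / 2) (d := 0) (e := 2 * π)

theorem exists_shift (β : ℝ) : ∃ n : ℤ, β + 2 * π * n ∈ Icc 0 (2 * π) := by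
  refine ⟨-toIcoDiv two_pi_pos 0 β, ?_⟩
  have := sub_toIcoDiv_zsmul_mem_Ico two_pi_pos 0 β
  rw [zsmul_eq_mul, zero_add] at this
  push_cast
  constructor <;> linarith [this.1, this.2]

theorem exists_base (x : E4) : ∃ (σ : SL(2, ℤ)) (t θ : ℝ), 0 ≤ t ∧ t ≤ 6 / 5 ∧ |θ| ≤ 1 / 2 ∧
    ∀ x', tt x' = t → x' 2 = θ → Base σ x x' := by
  by_cases h : tt x = 0
  · refine ⟨ModularGroup.T ^ (-round (x 2)), 0, x 2 - round (x 2), le_rfl, by norm_num,
      abs_sub_round _, fun x' h1 h2 => (base_iff_zero ?_).2 ⟨h1.trans h.symm, ?_⟩⟩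
    · simp [ModularGroup.coe_T_zpow]
    · simp [ModularGroup.coe_T_zpow, h2, sub_eq_add_neg]
  · let z : UpperHalfPlane := ⟨tau x, inv_pos.2 ((tt_nonneg x).lt_of_ne' h)⟩
    obtain ⟨σ, hσ⟩ := ModularGroup.exists_smul_mem_fd z
    have h1 := ModularGroup.three_le_four_mul_im_sq_of_mem_fd hσ
    have h2 := (σ • z).im_pos
    refine ⟨σ, (σ • z).im⁻¹, (σ • z).re, by positivity, ?_, hσ.2, fun x' h3 h4 =>
      ⟨?_, fun h0 => (h h0).elim⟩⟩
    · rw [inv_le_comm₀ h2 (by norm_num)]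
      nlinarith
    · have e : tau x' = (σ • z : UpperHalfPlane) := by
        apply Complex.ext <;> simp [tau, h3, h4]
      have hd : (σ 1 0 : ℂ) * tau x + σ 1 1 ≠ 0 := by
        simpa [ModularGroup.denom_apply] using UpperHalfPlane.denom_ne_zero σ z
      rw [e, UpperHalfPlane.coe_specialLinearGroup_apply]
      simpa using div_mul_cancel₀ _ hd

theorem exists_box (p : MM) : ∃ k, ∃ x ∈ Box, Phi k x = p := by
  obtain ⟨⟨k, x⟩, hx, rfl⟩ := exists_Phi p
  obtain ⟨σ, t, θ, h1, h2, h3, h4⟩ := exists_base x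
  obtain ⟨α, -, hα⟩ := exists_pol x
  obtain ⟨n, hn⟩ := exists_shift (-(σ 1 0 * α) + σ 1 1 * x 3)
  let x' : E4 := ![√t * cos (σ 0 0 * α - σ 0 1 * x 3), √t * sin (σ 0 0 * α - σ 0 1 * x 3), θ,
    -(σ 1 0 * α) + σ 1 1 * x 3 + 2 * π * n]
  have ht : tt x' = t := tt_polar h1 _ _ _
  have hb : x' ∈ Box := ⟨ht ▸ h2, h3, hn⟩
  refine ⟨σ • k, x', hb, ((Phi_eq hx (Box_subset hb)).2 ⟨σ, rfl, h4 x' ht rfl, α, n, hα, ?_, rfl⟩).symm⟩
  rw [Pol, ht]
  exact ⟨rfl, rfl⟩

instance : CompactSpace MM := by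
  refine ⟨?_⟩
  have : (univ : Set MM) = ⋃ k, Phi k '' Box :=
    (eq_univ_of_forall fun p => mem_iUnion.2 (exists_box p)).symm
  rw [this]
  exact isCompact_iUnion fun k =>
    isCompact_Box.image_of_continuousOn ((continuousOn_Phi k).mono Box_subset)

theorem convex_UU : Convex ℝ UU := by
  intro x hx y hy a b ha hb hab
  have h1 : tt (a • x + b • y) ≤ a * tt x + b * tt y := by
    simp only [tt, Pi.add_apply, Pi.smul_apply, smul_eq_mul]
    obtain rfl : b = 1 - a := by linarith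
    nlinarith [mul_nonneg (mul_nonneg ha hb) (sq_nonneg (x 0 - y 0)),
      mul_nonneg (mul_nonneg ha hb) (sq_nonneg (x 1 - y 1))]
  have h2 : tt x < 2 := hx
  have h3 : tt y < 2 := hy
  refine h1.trans_lt ?_
  rcases ha.eq_or_lt with rfl | h
  · rw [zero_add] at hab
    simpa [hab] using h3
  · nlinarith

instance : ConnectedSpace MM := by
  have h1 : ∀ k, ∀ x ∈ UU, ∀ y ∈ UU, Phi k x ∈ connectedComponent (Phi k y) := fun k x hx y hy =>
    (convex_UU.isPreconnected.image _ (continuousOn_Phi k)).subset_connectedComponent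
      (mem_image_of_mem _ hy) (mem_image_of_mem _ hx)
  have h2 : ∀ (σ : SL(2, ℤ)) (x y : E4), x ∈ UU → y ∈ UU → Rel σ x y → ∀ k : KK,
      connectedComponent (Phi (σ • k) 0) = connectedComponent (Phi k 0) := by
    intro σ x y hx hy h k
    rw [connectedComponent_eq (h1 k x hx 0 zero_mem_UU),
      connectedComponent_eq (h1 (σ • k) y hy 0 zero_mem_UU), (Phi_eq hx hy).2 ⟨σ, rfl, h⟩]
  have h3 : ∀ σ : SL(2, ℤ), ∀ k : KK,
      connectedComponent (Phi (σ • k) 0) = connectedComponent (Phi k 0) := by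
    intro σ
    have : σ ∈ Subgroup.closure {ModularGroup.S, ModularGroup.T} := by
      simp [SpecialLinearGroup.SL2Z_generators]
    induction this using Subgroup.closure_induction with
    | mem σ hσ =>
      rcases hσ with rfl | rfl
      · have e : tt ![1, 0, 0, 0] = 1 := by simp [tt]
        refine h2 _ ![1, 0, 0, 0] ![1, 0, 0, 0] (by simp [UU, e]) (by simp [UU, e])
          ⟨base_iff.2 ?_, 0, 0, ?_, ?_, ?_⟩ <;> simp [Pol, e, ModularGroup.coe_S]
      · have e : tt ![0, 0, 1, 0] = 0 := by simp [tt]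
        have e0 : tt 0 = 0 := by simp [tt]
        refine h2 _ 0 ![0, 0, 1, 0] zero_mem_UU (by simp [UU, e])
          ⟨base_iff.2 ?_, 0, 0, ?_, ?_, ?_⟩ <;> simp [Pol, e, e0, ModularGroup.coe_T]
    | one => simp
    | mul σ σ' _ _ a b => intro k; rw [mul_smul, a, b]
    | inv σ _ a => intro k; rw [← a (σ⁻¹ • k), smul_inv_smul]
  rw [connectedSpace_iff_connectedComponent]
  refine ⟨Phi k0 0, eq_univ_of_forall fun p => ?_⟩
  obtain ⟨⟨k, x⟩, hx, rfl⟩ := exists_Phi p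
  obtain ⟨σ, rfl⟩ := exists_smul_k0 k
  rw [← h3 σ]
  exact h1 _ x hx 0 zero_mem_UU

end Pool.Agent.Lib.MP_3eff7f_gt_h14
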