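import Pool.Agent.Lib.MP_3eff7f_gt_h14.Metric

set_option autoImplicit false

namespace Pool.Agent.Lib.MP_3eff7f_gt_h14

open Filter Topology Matrix Set Real
open scoped ContDiff

theorem mvt {f f' : ℝ → ℝ} {a b C : ℝ} (hab : a ≤ b) (hf : ∀ s ∈ Icc a b, HasDerivAt f (f' s) s)
    (hb : ∀ s ∈ Icc a b, |f' s| ≤ C) : |f b - f a| ≤ C * (b - a) :=
  norm_image_sub_le_of_norm_deriv_le_segment' (fun s hs => (hf s hs).hasDerivWithinAt)
    (fun s hs => hb s (Ico_subset_Icc_self hs)) b (right_mem_Icc.2 hab)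

theorem mvt' {f f' : ℝ → ℝ} {T C a b : ℝ} (ha : a ∈ Icc 0 T) (hb : b ∈ Icc 0 T) (hC : 0 ≤ C)
    (hf : ∀ s, HasDerivAt f (f' s) s) (hb' : ∀ s ∈ Icc 0 T, |f' s| ≤ C) :
    |f b - f a| ≤ C * T := by
  rcases le_total a b with h | h
  · refine (mvt h (fun s _ => hf s) fun s hs => hb' s ⟨ha.1.trans hs.1, hs.2.trans hb.2⟩).trans ?_
    gcongr
    linarith [ha.1, hb.2]
  · rw [abs_sub_comm]
    refine (mvt h (fun s _ => hf s) fun s hs => hb' s ⟨hb.1.trans hs.1, hs.2.trans ha.2⟩).trans ?_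
    gcongr
    linarith [hb.1, ha.2]

theorem exists_max {f : ℝ → ℝ} {T : ℝ} (hT : 0 < T) (hp : Function.Periodic f T)
    (hf : Continuous f) : ∃ s ∈ Icc 0 T, ∀ r, f r ≤ f s := by
  obtain ⟨s, hs, h⟩ := isCompact_Icc.exists_isMaxOn (nonempty_Icc.2 hT.le) hf.continuousOn
  refine ⟨s, hs, fun r => ?_⟩
  obtain ⟨y, hy, e⟩ := hp.exists_mem_Ico₀ hT r
  rw [e]
  exact h (Ico_subset_Icc_self hy)

theorem not_max {f f' R : ℝ → ℝ} {s R' : ℝ} (hf : ∀ r, HasDerivAt f (f' r) r)
    (hR : HasDerivAt R R' s) (h0 : R s = 0) (hpos : 0 < R') (h : ∀ r, 0 < R r → 0 < f' r) :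
    ¬ ∀ r, f r ≤ f s := by
  intro hmax
  have h1 := (hasDerivAt_iff_tendsto_slope_left_right.1 hR).2
  have h2 : ∀ᶠ r in 𝓝[>] s, 0 < R r := by
    filter_upwards [h1.eventually (lt_mem_nhds hpos), self_mem_nhdsWithin] with r hr hs
    rw [slope_def_field, h0, sub_zero] at hr
    exact (div_pos_iff_of_pos_right (sub_pos.2 hs)).1 hr
  obtain ⟨u, hu, h3⟩ := mem_nhdsGT_iff_exists_Ioo_subset.1 h2
  obtain ⟨ξ, hξ, e⟩ := exists_hasDerivAt_eq_slope f f' hu
    (fun r _ => (hf r).continuousAt.continuousWithinAt) fun r _ => hf r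
  have h4 := h ξ (h3 hξ)
  rw [e, div_pos_iff_of_pos_right (sub_pos.2 hu)] at h4
  linarith [hmax u]

theorem const_of_deriv {f : ℝ → ℝ} (hf : ∀ s, HasDerivAt f 0 s) (a b : ℝ) : f a = f b :=
  is_const_of_deriv_eq_zero (fun s => (hf s).differentiableAt) (fun s => (hf s).deriv) a b

theorem hasDerivAt_tt {c : ℝ → E4} {v : E4} {s : ℝ} (h : HasDerivAt c v s) :
    HasDerivAt (fun r => tt (c r)) (2 * (c s 0 * v 0 + c s 1 * v 1)) s := by
  refine (((hasDerivAt_pi.1 h 0).pow 2).add ((hasDerivAt_pi.1 h 1).pow 2)).congr_deriv ?_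
  simp
  ring

section

variable {η : ℝ} (h0 : 0 < η) (h1 : η ≤ 1 / 4)
include h0 h1

theorem theta_speed {x v : E4} {E : ℝ} (hE : 0 ≤ E) (h : bil (GG η x) v v = E ^ 2) :
    |v 2| ≤ 4 / kap * E := by
  have hq := quad_lower h0 h1 x v
  have hH := Hf_pos h0 h1 x
  have hL := Lf_ge x
  have hk := kap_pos
  have a1 : 0 ≤ 4 * (x 0 * v 0 + x 1 * v 1) ^ 2 / mu η (tt x) ^ 2 := by positivity
  have a3 : 0 ≤ Hf η (tt x) * v 3 ^ 2 := by positivity
  have a4 : (kap / 4) ^ 2 * v 2 ^ 2 ≤ E ^ 2 := by nlinarith [sq_nonneg (v 2)]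
  refine abs_le_of_sq_le_sq' ?_ (by positivity) |> abs_le.2
  rw [show (4 / kap * E) ^ 2 = E ^ 2 / (kap / 4) ^ 2 by field_simp, le_div_iff₀ (by positivity)]
  linarith

theorem hasDerivAt_logmu {c : ℝ → E4} {v : E4} {s : ℝ} (h : HasDerivAt c v s) :
    HasDerivAt (fun r => log (mu η (tt (c r))))
      (deriv (mu η) (tt (c s)) * (2 * (c s 0 * v 0 + c s 1 * v 1)) / mu η (tt (c s))) s :=
  ((hasDerivAt_mu η _).comp s (hasDerivAt_tt h)).log (mu_pos h0 h1 (tt_nonneg _)).ne'

theorem logmu_speed {x v : E4} {E : ℝ} (hE : 0 ≤ E) (h : bil (GG η x) v v = E ^ 2) :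
    |deriv (mu η) (tt x) * (2 * (x 0 * v 0 + x 1 * v 1)) / mu η (tt x)| ≤ E := by
  have hq := quad_lower h0 h1 x v
  have hH := Hf_pos h0 h1 x
  have hL := Lf_pos x
  have hm := mu_pos h0 h1 (tt_nonneg x)
  obtain ⟨d1, d2⟩ := mu_deriv h0 h1 (tt x)
  have a2 : 0 ≤ Lf (tt x) * v 2 ^ 2 := by positivity
  have a3 : 0 ≤ Hf η (tt x) * v 3 ^ 2 := by positivity
  have a1 : 0 ≤ 4 * (x 0 * v 0 + x 1 * v 1) ^ 2 / mu η (tt x) ^ 2 := by positivity
  refine abs_le_of_sq_le_sq' ?_ hE |> abs_le.2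
  rw [show (deriv (mu η) (tt x) * (2 * (x 0 * v 0 + x 1 * v 1)) / mu η (tt x)) ^ 2 =
    deriv (mu η) (tt x) ^ 2 * (4 * (x 0 * v 0 + x 1 * v 1) ^ 2 / mu η (tt x) ^ 2) by ring]
  have : deriv (mu η) (tt x) ^ 2 ≤ 1 := by nlinarith
  nlinarith

variable {c : ℝ → E4} (hc : ∀ s, ContDiffAt ℝ 2 c s) (hg : ∀ s, GeodEq (GG η) c s)
include hc hg

/-- The angular momentum. -/
noncomputable def JJ (c : ℝ → E4) (s : ℝ) : ℝ :=
  c s 0 * deriv c s 1 - c s 1 * deriv c s 0 + c s 2 * tt (c s) * deriv c s 3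

omit h0 h1 hg in
theorem hd1 (s : ℝ) : HasDerivAt c (deriv c s) s := ((hc s).differentiableAt (by simp)).hasDerivAt

theorem noether_alpha (s : ℝ) : HasDerivAt (fun s => η * JJ c s) 0 s := by
  have hw : HasDerivAt (fun s => (![-c s 1, c s 0, 0, 0] : E4))
      ![-deriv c s 1, deriv c s 0, 0, 0] s := by
    refine hasDerivAt_pi.2 fun i => ?_
    fin_cases i
    · exact (hasDerivAt_pi.1 (hd1 hc s) 1).neg
    · exact hasDerivAt_pi.1 (hd1 hc s) 0
    · exact hasDerivAt_const _ _
    · exact hasDerivAt_const _ _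
  have := (hg s).el (GG_sm h0 h1) (GG_pos h0 h1) (hc s) hw
  rw [fderiv_GG h0 h1] at this
  simp only [GG, bil_Gm] at this
  refine (this.congr_deriv ?_).congr_of_eventuallyEq (Eventually.of_forall fun r => ?_)
  · simp
    ring
  · simp [JJ, tt]
    ring_nf

theorem noether_beta (s : ℝ) :
    HasDerivAt (fun s => c s 2 * (η * JJ c s) + Hf η (tt (c s)) * deriv c s 3) 0 s := by
  have := (hg s).el (GG_sm h0 h1) (GG_pos h0 h1) (hc s) (hasDerivAt_const s (![0, 0, 0, 1] : E4))
  rw [fderiv_GG h0 h1] at this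
  simp only [GG, bil_Gm] at this
  refine (this.congr_deriv ?_).congr_of_eventuallyEq (Eventually.of_forall fun r => ?_)
  · simp
  · simp [JJ, tt]
    ring

theorem noether_theta (s : ℝ) :
    HasDerivAt (fun s => Lf (tt (c s)) * deriv c s 2) (η * JJ c s * deriv c s 3) s := by
  have := (hg s).el (GG_sm h0 h1) (GG_pos h0 h1) (hc s) (hasDerivAt_const s (![0, 0, 1, 0] : E4))
  rw [fderiv_GG h0 h1] at this
  simp only [GG, bil_Gm] at this
  refine (this.congr_deriv ?_).congr_of_eventuallyEq (Eventually.of_forall fun r => ?_)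
  · simp [JJ, tt]
    ring
  · simp

theorem radial (s : ℝ) (hρ : c s 0 * deriv c s 0 + c s 1 * deriv c s 1 = 0) :
    ∃ D : ℝ, tt (c s) * D = JJ c s ^ 2 ∧ 0 ≤ D ∧
      bil (GG η (c s)) (deriv c s) (deriv c s) =
        η * D + Lf (tt (c s)) * deriv c s 2 ^ 2 + Hf η (tt (c s)) * deriv c s 3 ^ 2 ∧
      HasDerivAt (fun s => (η + Bf η (tt (c s)) * tt (c s)) *
        (c s 0 * deriv c s 0 + c s 1 * deriv c s 1))
      (η * D + tt (c s) * (deriv Lf (tt (c s)) * deriv c s 2 ^ 2 -
        η * deriv (mu η) (tt (c s)) / mu η (tt (c s)) ^ 2 * deriv c s 3 ^ 2)) s := by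
  have hw : HasDerivAt (fun s => (![c s 0, c s 1, 0, 0] : E4))
      ![deriv c s 0, deriv c s 1, 0, 0] s := by
    refine hasDerivAt_pi.2 fun i => ?_
    fin_cases i
    · exact hasDerivAt_pi.1 (hd1 hc s) 0
    · exact hasDerivAt_pi.1 (hd1 hc s) 1
    · exact hasDerivAt_const _ _
    · exact hasDerivAt_const _ _
  have := (hg s).el (GG_sm h0 h1) (GG_pos h0 h1) (hc s) hw
  rw [fderiv_GG h0 h1] at this
  simp only [GG, bil_Gm] at this
  refine ⟨(deriv c s 0 - c s 2 * c s 1 * deriv c s 3) ^ 2 +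
    (deriv c s 1 + c s 2 * c s 0 * deriv c s 3) ^ 2, ?_, by positivity, ?_,
    (this.congr_deriv ?_).congr_of_eventuallyEq (Eventually.of_forall fun r => ?_)⟩
  · simp only [JJ, tt]
    linear_combination (c s 0 * deriv c s 0 + c s 1 * deriv c s 1) * hρ
  · simp only [GG, bil_Gm, hρ]
    ring
  · simp [hρ, tt]
    ring
  · simp [tt]
    ring

theorem no_short {E T : ℝ} (hE : 0 ≤ E)
    (hs : ∀ s, bil (GG η (c s)) (deriv c s) (deriv c s) = E ^ 2) (hT : 0 < T)
    (p0 : ∀ s, c (s + T) 0 = c s 0) (p1 : ∀ s, c (s + T) 1 = c s 1)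
    (p2 : ∀ s, c (s + T) 2 = c s 2) {j : ℤ} (p3 : c T 3 - c 0 3 = 2 * π * j)
    (hU : ∀ s, tt (c s) < 2) (hET : E * T ≤ kap / 16) : E = 0 := by
  have hk := kap_pos
  have hk1 := kap_le_one
  have d : ∀ i s, HasDerivAt (fun s => c s i) (deriv c s i) s := fun i s =>
    hasDerivAt_pi.1 (hd1 hc s) i
  have dt := fun s => hasDerivAt_tt (hd1 hc s)
  have ct : Continuous fun s => tt (c s) := continuous_iff_continuousAt.2 fun s =>
    (dt s).continuousAt
  have pt : Function.Periodic (fun s => tt (c s)) T := fun s => by simp only [tt, p0, p1]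
  have hJ := const_of_deriv (noether_alpha h0 h1 hc hg)
  have hB := const_of_deriv (noether_beta h0 h1 hc hg)
  have hlam := fun s => lam_pos h0 h1 (c s)
  have crit : ∀ s, (∀ r, tt (c r) ≤ tt (c s)) ∨ (∀ r, tt (c s) ≤ tt (c r)) →
      c s 0 * deriv c s 0 + c s 1 * deriv c s 1 = 0 := by
    intro s h
    have : 2 * (c s 0 * deriv c s 0 + c s 1 * deriv c s 1) = 0 := by
      rcases h with h | h
      · exact IsLocalMax.hasDerivAt_eq_zero (Eventually.of_forall h) (dt s)
      · exact IsLocalMin.hasDerivAt_eq_zero (Eventually.of_forall h) (dt s)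
    linarith
  obtain ⟨sM, hsM, hM⟩ := exists_max hT pt ct
  have rolle : ∀ i, c T i = c 0 i → ∃ s ∈ Icc 0 T, deriv c s i = 0 := fun i hi => by
    obtain ⟨s, hs, e⟩ := exists_hasDerivAt_eq_zero (f := fun s => c s i) hT
      (fun r _ => (d i r).continuousAt.continuousWithinAt) hi.symm fun r _ => d i r
    exact ⟨s, Ioo_subset_Icc_self hs, e⟩
  by_cases hA : η * JJ c 0 = 0
  · have hJ0 : ∀ s, η * JJ c s = 0 := fun s => (hJ s 0).trans hA
    have hθ : ∀ s, deriv c s 2 = 0 := by
      obtain ⟨r, -, hr⟩ := rolle 2 (by simpa using p2 0)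
      intro s
      have := const_of_deriv (f := fun s => Lf (tt (c s)) * deriv c s 2)
        (fun s => (noether_theta h0 h1 hc hg s).congr_deriv (by rw [hJ0, zero_mul])) s r
      simpa [hr, (Lf_pos _).ne'] using this
    simp only [hJ0, mul_zero, zero_add] at hB
    by_cases hb : deriv c 0 3 = 0
    · have hβ : ∀ s, deriv c s 3 = 0 := fun s => by
        simpa [hb, (Hf_pos h0 h1 _).ne'] using hB s 0
      obtain ⟨D, D1, D2, D3, -⟩ := radial h0 h1 hc hg sM (crit sM (Or.inl hM))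
      rw [hs, hθ, hβ] at D3
      have hJM : JJ c sM = 0 := by simpa [h0.ne'] using hJ0 sM
      rcases (tt_nonneg (c sM)).eq_or_lt with h | h
      · have z : ∀ r, c r 0 = 0 ∧ c r 1 = 0 := fun r => by
          have := hM r
          rw [← h, tt] at this
          constructor <;> nlinarith [sq_nonneg (c r 0), sq_nonneg (c r 1)]
        have z0 : deriv c 0 0 = 0 := (d 0 0).unique (by
          simpa only [(z _).1] using hasDerivAt_const (0 : ℝ) (0 : ℝ))
        have z1 : deriv c 0 1 = 0 := (d 1 0).unique (by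
          simpa only [(z _).2] using hasDerivAt_const (0 : ℝ) (0 : ℝ))
        have := hs 0
        simp only [GG, bil_Gm, z0, z1, hθ, hβ] at this
        simpa using this.symm
      · have : D = 0 := by simpa [hJM, h.ne'] using D1
        simpa [this] using D3
    · exfalso
      have hβ : ∀ s, deriv c s 3 ≠ 0 := fun s h => by
        have := hB s 0
        rw [h, mul_zero] at this
        exact mul_ne_zero (Hf_pos h0 h1 _).ne' hb this.symm
      obtain ⟨sm, hsm, hm⟩ := exists_max hT (f := fun s => -tt (c s)) (fun s => by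
        simp only [pt s]) ct.neg
      have hm' : ∀ r, tt (c sm) ≤ tt (c r) := fun r => by linarith [hm r]
      rcases (tt_nonneg (c sm)).eq_or_lt with h | h
      · have b1 : ∀ s ∈ Icc 0 T, mu η (tt (c s)) ≤ η * kap * exp (E * T) := fun s hs' => by
          have := mvt' hsm hs' hE (fun s => hasDerivAt_logmu h0 h1 (hd1 hc s))
            fun s _ => logmu_speed h0 h1 hE (hs s)
          rw [← h, mu_zero] at this
          have h2 := (abs_le.1 this).2
          rw [← exp_log (mu_pos h0 h1 (tt_nonneg (c s))), ← exp_log (mul_pos h0 hk), ← exp_add]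
          exact exp_le_exp.2 (by linarith)
        have b2 : exp (E * T) ≤ 4 := by
          have : exp (E * T) ≤ exp 1 := exp_le_exp.2 (by linarith)
          linarith [exp_one_lt_d9]
        have b3 : ∀ s ∈ Icc 0 T, |deriv c s 3| ≤ 2 * E := fun s hs' => by
          have hq := quad_lower h0 h1 (c s) (deriv c s)
          have hm := mu_pos h0 h1 (tt_nonneg (c s))
          have a1 : 0 ≤ 4 * (c s 0 * deriv c s 0 + c s 1 * deriv c s 1) ^ 2 /
            mu η (tt (c s)) ^ 2 := by positivity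
          have a2 : 1 / 4 ≤ Hf η (tt (c s)) := by
            rw [Hf, le_div_iff₀ hm]
            have := b1 s hs'
            have : η * kap * exp (E * T) ≤ η * 1 * 4 := by gcongr
            linarith
          rw [hs, hθ] at hq
          refine abs_le_of_sq_le_sq' ?_ (by positivity) |> abs_le.2
          nlinarith [sq_nonneg (deriv c s 3)]
        have b4 := mvt hT.le (fun s _ => d 3 s) b3
        rw [p3] at b4
        have b5 : j = 0 := by
          by_contra hj
          have : (1 : ℝ) ≤ |(j : ℝ)| := by exact_mod_cast Int.one_le_abs hj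
          rw [abs_mul, abs_of_pos two_pi_pos] at b4
          nlinarith [pi_gt_three]
        obtain ⟨r, -, hr⟩ := rolle 3 (by rw [b5] at p3; simpa [sub_eq_zero] using p3)
        exact hβ r hr
      · obtain ⟨D, D1, D2, -, D4⟩ := radial h0 h1 hc hg sm (crit sm (Or.inr hm'))
        have hJm : JJ c sm = 0 := by simpa [h0.ne'] using hJ0 sm
        have hD : D = 0 := by simpa [hJm, h.ne'] using D1
        refine not_max (f := fun s => -tt (c s)) (fun r => (dt r).neg) D4.neg
          (by simp [crit sm (Or.inr hm')]) ?_ (fun r hr => ?_) hm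
        · have a1 := mu_pos h0 h1 (tt_nonneg (c sm))
          have a2 := (mu_deriv h0 h1 (tt (c sm))).1
          have a3 : 0 < deriv (mu η) (tt (c sm)) := by linarith
          have a4 := hβ sm
          rw [hD, hθ]
          have : 0 < tt (c sm) * (η * deriv (mu η) (tt (c sm)) / mu η (tt (c sm)) ^ 2 *
            deriv c sm 3 ^ 2) := by positivity
          linarith
        · have := hlam r
          simp only [Pi.neg_apply] at hr
          nlinarith
  · exfalso
    have hΔ : c T 3 = c 0 3 := by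
      have := const_of_deriv (f := fun s => Lf (tt (c s)) * deriv c s 2 - η * JJ c 0 * c s 3)
        (fun s => ((noether_theta h0 h1 hc hg s).sub ((d 3 s).const_mul _)).congr_deriv
          (by rw [hJ s 0, sub_self])) T 0
      have e1 : tt (c T) = tt (c 0) := by simpa using pt 0
      have e2 : deriv c T 2 = deriv c 0 2 := by
        refine HasDerivAt.unique ?_ (d 2 0)
        have := (d 2 (0 + T)).comp_add_const 0 T
        simpa only [p2, zero_add] using this
      simp only [e1, e2, sub_right_inj] at this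
      exact mul_left_cancel₀ hA this
    obtain ⟨r, hr, hr0⟩ := rolle 3 hΔ
    have hθ := mvt' hr hsM (by positivity) (d 2) fun s _ => theta_speed h0 h1 hE (hs s)
    have hθ' : (c sM 2 - c r 2) ^ 2 ≤ (1 / 4) ^ 2 := by
      refine sq_le_sq' ?_ ?_ <;>
      · have : 4 / kap * E * T ≤ 1 / 4 := by
          rw [mul_assoc, div_mul_eq_mul_div, div_le_iff₀ hk]
          linarith
        linarith [abs_le.1 hθ]
    obtain ⟨D, D1, D2, -, D4⟩ := radial h0 h1 hc hg sM (crit sM (Or.inl hM))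
    have hJM : JJ c sM ≠ 0 := fun h => hA (by rw [← hJ sM 0, h, mul_zero])
    have ht : 0 < tt (c sM) := (tt_nonneg _).lt_of_ne fun h => hJM (by
      rw [← h, zero_mul] at D1
      exact pow_eq_zero_iff two_ne_zero |>.1 D1.symm)
    refine not_max dt D4 (by simp [crit sM (Or.inl hM)]) ?_ (fun r hr => ?_) hM
    · have a1 := mu_pos h0 h1 (tt_nonneg (c sM))
      obtain ⟨a2, a3⟩ := mu_deriv h0 h1 (tt (c sM))
      have a4 := Lf_deriv (tt_nonneg (c sM))
      have a5 : deriv c sM 3 / mu η (tt (c sM)) = -((c sM 2 - c r 2) * JJ c sM) := by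
        have := hB sM r
        rw [hr0, mul_zero, add_zero, hJ r sM, Hf] at this
        apply mul_left_cancel₀ h0.ne'
        rw [← mul_div_assoc, mul_div_right_comm]
        linarith
      have a6 : η * deriv (mu η) (tt (c sM)) / mu η (tt (c sM)) ^ 2 * deriv c sM 3 ^ 2 =
          η * deriv (mu η) (tt (c sM)) * ((c sM 2 - c r 2) ^ 2 * (tt (c sM) * D)) := by
        rw [D1, ← mul_pow, ← neg_sq (_ * _), ← a5]
        ring
      have a7 : 0 < D := D2.lt_of_ne fun h => hJM (by
        rw [← h, mul_zero] at D1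
        exact pow_eq_zero_iff two_ne_zero |>.1 D1.symm)
      have a8 : tt (c sM) * (deriv (mu η) (tt (c sM)) * ((c sM 2 - c r 2) ^ 2 * tt (c sM))) ≤
          2 * (1 * ((1 / 4) ^ 2 * 2)) := by
        have := (hU sM).le
        have : 0 ≤ deriv (mu η) (tt (c sM)) := by linarith
        gcongr
      have a9 : 0 ≤ tt (c sM) * (deriv Lf (tt (c sM)) * deriv c sM 2 ^ 2) := by positivity
      rw [a6]
      nlinarith [mul_pos h0 a7]
    · have := hlam r
      nlinarith

end

end Pool.Agent.Lib.MP_3eff7f_gt_h14
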