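import Pool.Agent.Lib.MP_3eff7f_gt_h14.Rel
import Pool.Agent.Lib.MP_3eff7f_gt_h14.Ode

set_option autoImplicit false

namespace Pool.Agent.Lib.MP_3eff7f_gt_h14

open Filter Topology Matrix Set Real
open scoped ContDiff MatrixGroups

theorem Pull.of_quad {n : ℕ} {G : MF n} (pos : ∀ x, (G x).PosDef) {φ : (Fin n → ℝ) → Fin n → ℝ}
    {x : Fin n → ℝ} (h : ∀ v, bil (G (φ x)) (fderiv ℝ φ x v) (fderiv ℝ φ x v) = bil (G x) v v) :
    Pull G φ x := by
  intro v w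
  have h1 := h (v + w)
  simp only [map_add, _root_.add_apply, h v, h w] at h1
  rw [bil_symm (pos _) (fderiv ℝ φ x w) (fderiv ℝ φ x v), bil_symm (pos x) w v] at h1
  linarith

theorem hasDerivAt_line (x v : E4) : HasDerivAt (fun s : ℝ => x + s • v) v 0 := by
  simpa using ((hasDerivAt_id (0 : ℝ)).smul_const v).const_add x

theorem fderiv_line {F : Type} [NormedAddCommGroup F] [NormedSpace ℝ F] {f : E4 → F} {x : E4}
    (hf : DifferentiableAt ℝ f x) (v : E4) :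
    HasDerivAt (fun s : ℝ => f (x + s • v)) (fderiv ℝ f x v) 0 :=
  HasFDerivAt.comp_hasDerivAt (0 : ℝ) (l := f) (by simpa using hf.hasFDerivAt) (hasDerivAt_line x v)

theorem eventually_line {p : E4 → Prop} {x : E4} (h : ∀ᶠ y in 𝓝 x, p y) (v : E4) :
    ∀ᶠ s in 𝓝 (0 : ℝ), p (x + s • v) :=
  (hasDerivAt_line x v).continuousAt.eventually (by simpa using h)

theorem polar_quad (η : ℝ) {c : ℝ → E4} {W : E4} (hc : HasDerivAt c W 0) {A : ℝ → ℝ} {A' T' : ℝ}
    (hA : HasDerivAt A A' 0) (hT : HasDerivAt (fun s => tt (c s)) T' 0)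
    (hp : ∀ᶠ s in 𝓝 0, Pol (c s) (A s)) (ht : 1 / 2 < tt (c 0)) :
    bil (GG η (c 0)) W W = η * (tt (c 0) * (A' + c 0 2 * W 3) ^ 2 + W 3 ^ 2 / tt (c 0)) +
      (T' ^ 2 / tt (c 0) ^ 2 + tt (c 0) ^ 2 * W 2 ^ 2) := by
  have h0 : tt (c 0) ≠ 0 := by linarith
  have e0 := (hasDerivAt_pi.1 hc 0).unique
    (((hT.sqrt h0).mul hA.cos).congr_of_eventuallyEq (hp.mono fun s hs => hs.1))
  have e1 := (hasDerivAt_pi.1 hc 1).unique
    (((hT.sqrt h0).mul hA.sin).congr_of_eventuallyEq (hp.mono fun s hs => hs.2))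
  have hJ : c 0 0 * W 1 - c 0 1 * W 0 = tt (c 0) * A' := by
    have hs := sq_sqrt (tt_nonneg (c 0))
    have := hp.self_of_nhds
    rw [e0, e1]
    nth_rw 1 [this.1]
    nth_rw 1 [show c 0 1 = _ from this.2]
    linear_combination A' * hs + √(tt (c 0)) ^ 2 * A' * sin_sq_add_cos_sq (A 0)
  rw [hT.unique (hasDerivAt_tt hc), GG, bil_Gm, Bf, Lf, Hf, mu_eq _ ht.le, mu_eq _ ht.le]
  have hA' : A' = (c 0 0 * W 1 - c 0 1 * W 0) / tt (c 0) := by rw [hJ]; field_simp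
  rw [hA']
  field_simp
  unfold tt
  ring

theorem moebius_identity {a b c d θ t T v2 v3 A η : ℝ} (hd : a * d - b * c = 1) (hc : c ≠ 0)
    (ht : t ≠ 0) {N N' : ℝ} (hN : N = (c * θ + d) ^ 2 + (c * t⁻¹) ^ 2)
    (hN' : N' = 2 * (c * θ + d) * (c * v2) + 2 * (c * t⁻¹) * (c * (-T / t ^ 2))) :
    η * (t * N * (a * A - b * v3 + (a - (c * θ + d) / N) / c * (-(c * A) + d * v3)) ^ 2 +
      (-(c * A) + d * v3) ^ 2 / (t * N)) +
      ((T * N + t * N') ^ 2 / (t * N) ^ 2 +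
        (t * N) ^ 2 * (-((c * v2 * N - (c * θ + d) * N') / N ^ 2) / c) ^ 2) =
    η * (t * (A + θ * v3) ^ 2 + v3 ^ 2 / t) + (T ^ 2 / t ^ 2 + t ^ 2 * v2 ^ 2) := by
  have hb : b = (a * d - 1) / c := by field_simp; linarith
  have hN0 : N ≠ 0 := by rw [hN]; positivity
  have h1 : t * N * (a * A - b * v3 + (a - (c * θ + d) / N) / c * (-(c * A) + d * v3)) ^ 2 +
      (-(c * A) + d * v3) ^ 2 / (t * N) = t * (A + θ * v3) ^ 2 + v3 ^ 2 / t := by
    rw [hb]
    field_simp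
    rw [hN]
    field_simp
    ring
  have h2 : (T * N + t * N') ^ 2 / (t * N) ^ 2 +
      (t * N) ^ 2 * (-((c * v2 * N - (c * θ + d) * N') / N ^ 2) / c) ^ 2 =
      T ^ 2 / t ^ 2 + t ^ 2 * v2 ^ 2 := by
    field_simp
    rw [hN, hN']
    field_simp
    ring
  rw [h1, h2]

/-- Local isometric realisation of the gluing relation. -/
def LocIso (σ : SL(2, ℤ)) (x x' : E4) : Prop :=
  ∃ F : E4 → E4, F x = x' ∧ ContDiffAt ℝ ∞ F x ∧ (∀ᶠ y in 𝓝 x, Rel σ y (F y)) ∧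
    ∀ η, 0 < η → η ≤ 1 / 4 → Pull (GG η) F x

theorem contDiffAt_vec {f0 f1 f2 f3 : E4 → ℝ} {x : E4} (h0 : ContDiffAt ℝ ∞ f0 x)
    (h1 : ContDiffAt ℝ ∞ f1 x) (h2 : ContDiffAt ℝ ∞ f2 x) (h3 : ContDiffAt ℝ ∞ f3 x) :
    ContDiffAt ℝ ∞ (fun y => (![f0 y, f1 y, f2 y, f3 y] : E4)) x := by
  refine contDiffAt_pi.2 fun i => ?_
  fin_cases i
  exacts [h0, h1, h2, h3]

theorem locIso_zero {σ : SL(2, ℤ)} {x x' : E4} (h : Rel σ x x') (hc : σ 1 0 = 0) :
    LocIso σ x x' := by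
  obtain ⟨hb, α, n, h1, h2, h3⟩ := h
  obtain ⟨u1, u2⟩ := unit_of_c' hc
  have hcos : ∀ β : ℝ, cos (σ 0 0 * β) = cos β ∧ sin (σ 0 0 * β) = σ 0 0 * sin β := fun β => by
    rcases Int.eq_one_or_neg_one_of_mul_eq_one (unit_of_c hc).2 with a | a <;> simp [a]
  let F : E4 → E4 := fun y =>
    ![y 0 * cos (σ 0 1 * y 3) + σ 0 0 * y 1 * sin (σ 0 1 * y 3),
      σ 0 0 * y 1 * cos (σ 0 1 * y 3) - y 0 * sin (σ 0 1 * y 3),
      y 2 + σ 0 0 * σ 0 1, σ 0 0 * y 3 + 2 * π * n]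
  have ht : ∀ y, tt (F y) = tt y := fun y => by
    simp only [tt, F, cons_val_zero, cons_val_one]
    linear_combination (y 0 ^ 2 + σ 0 0 ^ 2 * y 1 ^ 2) * sin_sq_add_cos_sq (σ 0 1 * y 3) +
      y 1 ^ 2 * u2
  have hp : ∀ y β, Pol y β → Pol (F y) (σ 0 0 * β - σ 0 1 * y 3) := fun y β hβ => by
    rw [Pol, ht, cos_sub, sin_sub, (hcos β).1, (hcos β).2]
    simp only [F, cons_val_zero, cons_val_one]
    constructor
    · linear_combination cos (σ 0 1 * y 3) * hβ.1 + σ 0 0 * sin (σ 0 1 * y 3) * hβ.2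
    · linear_combination σ 0 0 * cos (σ 0 1 * y 3) * hβ.2 - sin (σ 0 1 * y 3) * hβ.1
  obtain ⟨b1, b2⟩ := (base_iff_zero hc).1 hb
  have hF : ContDiffAt ℝ ∞ F x :=
    contDiffAt_vec (by fun_prop) (by fun_prop) (by fun_prop) (by fun_prop)
  refine ⟨F, ?_, hF, Eventually.of_forall fun y => ?_, fun η h0 h1 =>
    .of_quad (GG_pos h0 h1) fun v => ?_⟩
  · ext i
    fin_cases i
    · exact (hp x α h1).1.trans (by rw [ht, ← b1]; exact h2.1.symm)
    · exact (hp x α h1).2.trans (by rw [ht, ← b1]; exact h2.2.symm)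
    · exact b2.symm
    · simp [F, h3, hc, u1]
  · obtain ⟨β, -, hβ⟩ := exists_pol y
    exact ⟨(base_iff_zero hc).2 ⟨ht y, rfl⟩, β, n, hβ, hp y β hβ, by simp [F, hc, u1]⟩
  · have l := hasDerivAt_pi.1 (fderiv_line (hF.differentiableAt (by simp)) v)
    have c := hasDerivAt_pi.1 (hasDerivAt_line x v)
    have c3 := (c 3).const_mul (σ 0 1 : ℝ)
    have e0 := (l 0).unique (((c 0).mul c3.cos).add (((c 1).const_mul (σ 0 0 : ℝ)).mul c3.sin))
    have e1 := (l 1).unique ((((c 1).const_mul (σ 0 0 : ℝ)).mul c3.cos).sub ((c 0).mul c3.sin))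
    have e2 := (l 2).unique ((c 2).add_const _)
    have e3 := (l 3).unique (((c 3).const_mul (σ 0 0 : ℝ)).add_const _)
    simp only [GG, bil_Gm, ht, e0, e1, e2, e3]
    simp only [F, cons_val_zero, cons_val_one, cons_val, zero_smul, add_zero]
    have hs := sin_sq_add_cos_sq (σ 0 1 * x 3)
    generalize sin (σ 0 1 * x 3) = S at hs ⊢
    generalize cos (σ 0 1 * x 3) = C at hs ⊢
    rcases Int.eq_one_or_neg_one_of_mul_eq_one (unit_of_c hc).2 with a | a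
    · simp only [a, Int.cast_one]
      linear_combination (η * ((v 0 - x 2 * x 1 * v 3) ^ 2 + (v 1 + x 2 * x 0 * v 3) ^ 2) +
        Bf η (tt x) * (x 0 * v 0 + x 1 * v 1) ^ 2 * (S ^ 2 + C ^ 2 + 1)) * hs
    · simp only [a, Int.cast_neg, Int.cast_one]
      linear_combination (η * ((v 0 - x 2 * x 1 * v 3) ^ 2 + (v 1 + x 2 * x 0 * v 3) ^ 2) +
        Bf η (tt x) * (x 0 * v 0 + x 1 * v 1) ^ 2 * (S ^ 2 + C ^ 2 + 1)) * hs

theorem exists_angle {x : E4} {α : ℝ} (h : Pol x α) (hx : tt x ≠ 0) :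
    ∃ A : E4 → ℝ, A x = α ∧ ContDiffAt ℝ ∞ A x ∧ ∀ᶠ y in 𝓝 x, Pol y (A y) := by
  let p : E4 → ℝ := fun y => y 0 * cos α + y 1 * sin α
  let q : E4 → ℝ := fun y => y 1 * cos α - y 0 * sin α
  have hp : 0 < p x := by
    have : p x = √(tt x) := by
      simp only [p]
      linear_combination cos α * h.1 + sin α * h.2 + √(tt x) * sin_sq_add_cos_sq α
    rw [this]
    exact sqrt_pos.2 ((tt_nonneg x).lt_of_ne hx.symm)
  have hq : q x = 0 := by
    simp only [q]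
    linear_combination cos α * h.2 - sin α * h.1
  have cp : ContDiff ℝ ∞ p := by fun_prop
  have cq : ContDiff ℝ ∞ q := by fun_prop
  refine ⟨fun y => α + arctan (q y / p y), by simp [hq], contDiffAt_const.add
    (contDiff_arctan.contDiffAt.comp x (cq.contDiffAt.div cp.contDiffAt hp.ne')), ?_⟩
  filter_upwards [cp.continuous.continuousAt.eventually (lt_mem_nhds hp)] with y hy
  have h1 : √(tt y) = p y * √(1 + (q y / p y) ^ 2) := by
    rw [← sqrt_sq hy.le, ← sqrt_mul (sq_nonneg _), sqrt_sq hy.le]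
    congr 1
    field_simp
    simp only [p, q, tt]
    linear_combination -(y 0 ^ 2 + y 1 ^ 2) * sin_sq_add_cos_sq α
  have h2 : √(1 + (q y / p y) ^ 2) ≠ 0 := by positivity
  rw [Pol, h1, cos_add, sin_add, cos_arctan, sin_arctan]
  constructor
  · field_simp
    simp only [p, q]
    linear_combination -y 0 * sin_sq_add_cos_sq α
  · field_simp
    simp only [p, q]
    linear_combination -y 1 * sin_sq_add_cos_sq α

theorem tt_polar {t : ℝ} (ht : 0 ≤ t) (α a b : ℝ) : tt ![√t * cos α, √t * sin α, a, b] = t := by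
  simp only [tt, cons_val_zero, cons_val_one]
  linear_combination (sin α ^ 2 + cos α ^ 2) * sq_sqrt ht + t * sin_sq_add_cos_sq α

theorem locIso_ne {σ : SL(2, ℤ)} {x x' : E4} (h : Rel σ x x') (hc : σ 1 0 ≠ 0) (hx : tt x < 2)
    (hx' : tt x' < 2) : LocIso σ x x' := by
  obtain ⟨hb, α, n, h1, h2, h3⟩ := h
  obtain ⟨t1, t2⟩ := hb.half hc hx hx'
  have t0 : tt x ≠ 0 := by linarith
  have hc' : (σ 1 0 : ℝ) ≠ 0 := by exact_mod_cast hc
  have hd := det_SL' σ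
  obtain ⟨A, A1, A2, A3⟩ := exists_angle h1 t0
  let N : E4 → ℝ := fun y => (σ 1 0 * y 2 + σ 1 1) ^ 2 + (σ 1 0 * (tt y)⁻¹) ^ 2
  let F : E4 → E4 := fun y =>
    ![√(tt y * N y) * cos (σ 0 0 * A y - σ 0 1 * y 3), √(tt y * N y) * sin (σ 0 0 * A y - σ 0 1 * y 3),
      (σ 0 0 - (σ 1 0 * y 2 + σ 1 1) / N y) / σ 1 0, -(σ 1 0 * A y) + σ 1 1 * y 3 + 2 * π * n]
  have ht : ∀ y, tt (F y) = tt y * N y := fun y =>
    tt_polar (mul_nonneg (tt_nonneg y) (by positivity)) _ _ _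
  have hN : ∀ y, tt y ≠ 0 → N y ≠ 0 := fun y hy => by simp only [N]; positivity
  have hp : ∀ y, Pol (F y) (σ 0 0 * A y - σ 0 1 * y 3) := fun y => by
    rw [Pol, ht]
    exact ⟨rfl, rfl⟩
  have e : tt x' = tt x * N x := hb.tt_eq t0
  have cN : ContDiffAt ℝ ∞ N x := by
    exact (ContDiffAt.pow (by fun_prop) 2).add
      ((contDiffAt_const.mul (contDiff_tt.contDiffAt.inv t0)).pow 2)
  have cS : ContDiffAt ℝ ∞ (fun y => √(tt y * N y)) x :=
    (contDiff_tt.contDiffAt.mul cN).sqrt (mul_ne_zero t0 (hN x t0))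
  have cP : ContDiffAt ℝ ∞ (fun y => (σ 1 0 * y 2 + σ 1 1) / N y) x :=
    ContDiffAt.div (by fun_prop) cN (hN x t0)
  have hF : ContDiffAt ℝ ∞ F x :=
    contDiffAt_vec (by fun_prop) (by fun_prop) ((contDiffAt_const.sub cP).div_const _) (by fun_prop)
  have hFx : F x = x' := by
    ext i
    fin_cases i
    · exact (hp x).1.trans (by rw [ht, ← e, A1]; exact h2.1.symm)
    · exact (hp x).2.trans (by rw [ht, ← e, A1]; exact h2.2.symm)
    · have := hb.re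
      have h4 := hN x t0
      change (σ 0 0 - (σ 1 0 * x 2 + σ 1 1) / N x) / σ 1 0 = x' 2
      rw [div_eq_iff hc', sub_eq_iff_eq_add', ← sub_eq_iff_eq_add, eq_div_iff h4]
      linear_combination this
    · simp [F, h3, A1]
  refine ⟨F, hFx, hF, ?_, fun η h0 h1 => .of_quad (GG_pos h0 h1) fun v => ?_⟩
  · filter_upwards [A3, contDiff_tt.continuous.continuousAt.eventually_ne t0] with y hy ty
    refine ⟨(base_iff_ne hc).2 ?_, A y, n, hy, hp y, rfl⟩
    have h4 := hN y ty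
    have h5 : tt y ^ 2 * N y = tt y ^ 2 * (σ 1 0 * y 2 + σ 1 1) ^ 2 + σ 1 0 ^ 2 := by
      simp only [N]; field_simp
    rw [ht, show F y 2 = (σ 0 0 - (σ 1 0 * y 2 + σ 1 1) / N y) / σ 1 0 from rfl]
    constructor
    · field_simp
      linear_combination h5 + tt y ^ 2 * N y * hd
    · field_simp
      ring
  · have l := fderiv_line (hF.differentiableAt (by simp)) v
    have c := hasDerivAt_pi.1 (hasDerivAt_line x v)
    have cA := fderiv_line (A2.differentiableAt (by simp)) v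
    have cT := hasDerivAt_tt (hasDerivAt_line x v)
    generalize fderiv ℝ A x v = A' at cA
    generalize 2 * (_ + _ : ℝ) = T at cT
    have x0 : x + (0 : ℝ) • v = x := by simp
    have cP := ((c 2).const_mul (σ 1 0 : ℝ)).add_const (σ 1 1 : ℝ)
    have cN' := (cP.pow 2).add (((cT.inv (by rwa [x0])).const_mul (σ 1 0 : ℝ)).pow 2)
    have q1 := polar_quad η (hasDerivAt_line x v) cA cT (eventually_line A3 v) (by rwa [x0])
    have q2 := polar_quad η l ((cA.const_mul (σ 0 0 : ℝ)).sub ((c 3).const_mul (σ 0 1 : ℝ)))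
      ((cT.mul cN').congr_of_eventuallyEq (Eventually.of_forall fun s => ht _))
      (Eventually.of_forall fun s => hp _) (by rwa [x0, hFx])
    have e2 := (hasDerivAt_pi.1 l 2).unique (((cP.div cN' (by
      simpa [x0] using hN x t0)).const_sub (σ 0 0 : ℝ)).div_const (σ 1 0 : ℝ))
    have e3 := (hasDerivAt_pi.1 l 3).unique (((cA.const_mul (σ 1 0 : ℝ)).neg.add
      ((c 3).const_mul (σ 1 1 : ℝ))).add_const _)
    simp only [x0] at q1 q2
    rw [q1, q2, e2, e3, ht, show F x 2 = (σ 0 0 - (σ 1 0 * x 2 + σ 1 1) / N x) / σ 1 0 from rfl,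
      ← moebius_identity (v2 := v 2) (v3 := v 3) (T := T) (A := A') (η := η) hd hc' t0 rfl rfl]
    simp [N]

theorem Rel.locIso {σ : SL(2, ℤ)} {x x' : E4} (h : Rel σ x x') (hx : tt x < 2)
    (hx' : tt x' < 2) : LocIso σ x x' := by
  by_cases hc : σ 1 0 = 0
  exacts [locIso_zero h hc, locIso_ne h hc hx hx']

end Pool.Agent.Lib.MP_3eff7f_gt_h14
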