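import Pool.Agent.Lib.MP_3eff7f_gt_h14.Glue

set_option autoImplicit false

namespace Pool.Agent.Lib.MP_3eff7f_gt_h14

open Filter Topology Matrix Set Real
open scoped ContDiff MatrixGroups Manifold

theorem GeodEq.congr_curve {n : ℕ} {G : MF n} {x y : ℝ → Fin n → ℝ} {t : ℝ} (h : GeodEq G x t)
    (e : y =ᶠ[𝓝 t] x) : GeodEq G y t := by
  intro k
  have e1 : ∀ i, (fun s => y s i) =ᶠ[𝓝 t] fun s => x s i := fun i =>
    e.mono fun s hs => congrFun hs i
  simp only [(e1 _).deriv_eq, (e1 k).deriv.deriv_eq, e.eq_of_nhds]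
  exact h k

theorem Phi_shift (k : KK) {x x' : E4} (hx : x ∈ UU) (n : ℤ) (h0 : x' 0 = x 0) (h1 : x' 1 = x 1)
    (h2 : x' 2 = x 2) (h3 : x' 3 = x 3 + 2 * π * n) : tt x' = tt x ∧ Phi k x' = Phi k x := by
  have ht : tt x' = tt x := by simp only [tt, h0, h1]
  exact ⟨ht, ((Phi_eq hx (show tt x' < 2 from ht ▸ hx)).2
    ⟨1, (one_smul _ _).symm, .shift x x' n h0 h1 h2 h3⟩).symm⟩

variable {η : ℝ} (h0 : 0 < η) (h1 : η ≤ 1 / 4) {γ : ℝ → MM}
  (hγ : IsGeodesic (mdata h0 h1).metric γ)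
include hγ

theorem speed_const : ∃ E, 0 ≤ E ∧
    ∀ t, ip (mdata h0 h1).metric (γ t) (vel E4 γ t) (vel E4 γ t) = E ^ 2 := by
  have h : ∀ t, HasDerivAt (fun t => ip (mdata h0 h1).metric (γ t) (vel E4 γ t) (vel E4 γ t)) 0 t := by
    intro t
    have he := chart_mem_atlas E4 (γ t)
    have ht := mem_chart_source E4 (γ t)
    refine (((mdata h0 h1).geodEq hγ he ht).energy (GG_sm h0 h1) (GG_pos h0 h1)
      (contDiffAt_chart_curve hγ.1 he ht)).congr_of_eventuallyEq ?_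
    filter_upwards [hγ.1.continuous.continuousAt.eventually (chart_source_mem_nhds E4 (γ t))]
      with s hs
    exact (mdata h0 h1).speed hγ.1 he hs
  refine ⟨√(ip (mdata h0 h1).metric (γ 0) (vel E4 γ 0) (vel E4 γ 0)), sqrt_nonneg _, fun t => ?_⟩
  rw [sq_sqrt, const_of_deriv h t 0]
  rw [(mdata h0 h1).speed hγ.1 (chart_mem_atlas E4 (γ 0)) (mem_chart_source E4 (γ 0)), bil_apply]
  exact (GG_pos h0 h1 _).posSemidef.dotProduct_mulVec_nonneg _

variable {E T : ℝ} (hE : 0 ≤ E)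
  (hs : ∀ t, ip (mdata h0 h1).metric (γ t) (vel E4 γ t) (vel E4 γ t) = E ^ 2)
  (hT : 0 < T) (hET : E * T ≤ kap / 16)
include hE hs hT hET

theorem confine : ∃ k, ∀ s ∈ Icc 0 T, ∃ x ∈ UU, |x 2| ≤ 1 ∧ Phi k x = γ s := by
  obtain ⟨k, a, ha, e0⟩ := exists_box (γ 0)
  have hk := kap_pos
  have hk1 := kap_le_one
  have cγ := hγ.1.continuous
  let S : Set E4 := {x | tt x ≤ 8 / 5 ∧ x 2 ∈ Icc (-1) 1 ∧ x 3 ∈ Icc 0 (2 * π)}
  have hS : S ⊆ UU := fun x hx => hx.1.trans_lt (by norm_num)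
  have cS : IsCompact S := isCompact_slab
  let Z : Set (ℝ × E4) := {q ∈ Icc 0 T ×ˢ S | Phi k q.2 = γ q.1} ∩
    ({q | log (mu η (tt q.2)) ≤ log (mu η (tt a)) + E * q.1} ∩ {q | |q.2 2 - a 2| ≤ 4 / kap * E * q.1})
  have cL : Continuous fun x : E4 => log (mu η (tt x)) :=
    ((contDiff_mu η).continuous.comp contDiff_tt.continuous).log
      fun x => (mu_pos h0 h1 (tt_nonneg x)).ne'
  have cZ : IsCompact Z := by
    refine ((isCompact_Icc.prod cS).of_isClosed_subset ?_ (sep_subset _ _)).inter_right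
      ((isClosed_le (cL.comp continuous_snd) (by fun_prop)).inter
        (isClosed_le (by fun_prop) (by fun_prop)))
    exact (isClosed_Icc.prod cS.isClosed).isClosed_eq ((continuousOn_Phi k).comp
      continuousOn_snd fun q hq => hS hq.2) (cγ.comp continuous_fst).continuousOn
  have key : Icc 0 T ⊆ Prod.fst '' Z := by
    refine ((cZ.image continuous_fst).isClosed.inter isClosed_Icc).Icc_subset_of_forall_mem_nhdsWithin
      ⟨(0, a), ⟨⟨⟨⟨le_rfl, hT.le⟩, ha.1.trans (by norm_num), ?_, ha.2.2⟩, e0⟩, by simp, by simp⟩,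
        rfl⟩ ?_
    · have := abs_le.1 ha.2.1
      constructor <;> linarith [this.1, this.2]
    rintro _ ⟨⟨⟨s, x⟩, ⟨⟨⟨-, hx⟩, e⟩, b1, b2⟩, rfl⟩, hs0, hsT⟩
    have hsrc : γ s ∈ (chart k x).source := ⟨x, mem_NN (hS hx), e⟩
    obtain ⟨u, hu, hsub⟩ := mem_nhdsGE_iff_exists_Icc_subset.1 (mem_nhdsWithin_of_mem_nhds
      (cγ.continuousAt.preimage_mem_nhds ((chart k x).open_source.mem_nhds hsrc)))
    filter_upwards [Ioc_mem_nhdsGT (lt_min hu hsT)] with r hr
    have hr1 := hr.2.trans (min_le_left _ _)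
    have hr2 := hr.2.trans (min_le_right _ _)
    have hin : ∀ p ∈ Icc s r, γ p ∈ (chart k x).source := fun p hp => hsub ⟨hp.1, hp.2.trans hr1⟩
    have hd : ∀ p ∈ Icc s r, HasDerivAt (fun p => chart k x (γ p))
        (deriv (fun p => chart k x (γ p)) p) p := fun p hp =>
      ((contDiffAt_chart_curve hγ.1 (chart_mem k x) (hin p hp)).differentiableAt
        (by simp)).hasDerivAt
    have hq := fun p hp => ((mdata h0 h1).speed hγ.1 (chart_mem k x) (hin p hp)).symm.trans (hs p)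
    have m1 := mvt hr.1.le (fun p hp => hasDerivAt_logmu h0 h1 (hd p hp))
      fun p hp => logmu_speed h0 h1 hE (hq p hp)
    have m2 := mvt hr.1.le (fun p hp => hasDerivAt_pi.1 (hd p hp) 2)
      fun p hp => theta_speed h0 h1 hE (hq p hp)
    have e1 : chart k x (γ s) = x := by rw [← e]; exact chart_Phi k (mem_NN (hS hx))
    have hy := (chart k x).map_source (hin r (right_mem_Icc.2 hr.1.le))
    have e2 := Phi_chart (hin r (right_mem_Icc.2 hr.1.le))
    simp only [e1] at m1 m2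
    generalize chart k x (γ r) = y at m1 m2 hy e2
    obtain ⟨n, hn⟩ := exists_shift (y 3)
    obtain ⟨e3, e4⟩ := Phi_shift k (x' := ![y 0, y 1, y 2, y 3 + 2 * π * n]) hy.1 n rfl rfl rfl rfl
    have c1 : log (mu η (tt y)) ≤ log (mu η (tt a)) + E * r := by
      have : log (mu η (tt x)) ≤ log (mu η (tt a)) + E * s := b1
      linarith [(abs_le.1 m1).2]
    have c2 : |y 2 - a 2| ≤ 4 / kap * E * r := by
      have : |x 2 - a 2| ≤ 4 / kap * E * s := b2
      linarith [abs_sub_le (y 2) (x 2) (a 2)]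
    have c3 : E * r ≤ kap / 16 := le_trans (by gcongr) hET
    refine ⟨(r, ![y 0, y 1, y 2, y 3 + 2 * π * n]), ⟨⟨⟨⟨hs0.trans hr.1.le, hr2⟩, ?_, ?_, hn⟩,
      e4.trans e2⟩, by simpa only [mem_setOf_eq, e3] using c1, c2⟩, rfl⟩
    · change tt _ ≤ _
      rw [e3]
      have d1 : mu η (tt a) ≤ 6 / 5 := (mu_mono h0 h1 ha.1).trans (mu_eq η (by norm_num)).le
      have d2 : mu η (tt y) ≤ mu η (tt a) * exp (1 / 16) := by
        rw [← exp_log (mu_pos h0 h1 (tt_nonneg y)), ← exp_log (mu_pos h0 h1 (tt_nonneg a)),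
          ← exp_add]
        exact exp_le_exp.2 (by linarith)
      have d3 : exp (1 / 16) ≤ 4 / 3 :=
        (exp_bound_div_one_sub_of_interval (by norm_num) (by norm_num)).trans (by norm_num)
      have d4 : mu η (tt a) * exp (1 / 16) ≤ 6 / 5 * (4 / 3) := by gcongr
      linarith [le_mu h0 (tt y)]
    · have d1 : 4 / kap * E * r ≤ 1 / 4 := by
        rw [mul_assoc, div_mul_eq_mul_div, div_le_iff₀ hk]
        linarith
      have d2 := abs_le.1 (c2.trans d1)
      have d3 := abs_le.1 ha.2.1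
      change y 2 ∈ _
      constructor <;> linarith [d2.1, d2.2, d3.1, d3.2]
  refine ⟨k, fun s hs => ?_⟩
  obtain ⟨⟨_, x⟩, ⟨⟨⟨-, hx⟩, e⟩, -⟩, rfl⟩ := key hs
  exact ⟨x, hS hx, abs_le.2 hx.2.1, e⟩

theorem exists_lift (hp : Function.Periodic γ T) : ∃ (k : KK) (c : ℝ → E4), Continuous c ∧
    ∀ s, c s ∈ UU ∧ |c s 2| ≤ 1 ∧ Phi k (c s) = γ s := by
  obtain ⟨k, hk⟩ := confine h0 h1 hγ hE hs hT hET
  have : ∀ s, ∃ x ∈ UU, |x 2| ≤ 1 ∧ Phi k x = γ s := fun s => by
    obtain ⟨r, hr, e⟩ := hp.exists_mem_Ico₀ hT s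
    rw [e]
    exact hk r (Ico_subset_Icc_self hr)
  choose X X1 X2 X3 using this
  have loc : ∀ s, ∃ c : ℝ → E4, ContinuousAt c s ∧ ∀ᶠ r in 𝓝 s, X r 0 = c r 0 ∧ X r 1 = c r 1 ∧
      X r 2 = c r 2 ∧ ∃ n : ℤ, X r 3 = c r 3 + 2 * π * n := fun s => by
    have hsrc : γ s ∈ (chart k (X s)).source := ⟨_, mem_NN (X1 s), X3 s⟩
    refine ⟨_, (contDiffAt_chart_curve hγ.1 (chart_mem k _) hsrc).continuousAt, ?_⟩
    filter_upwards [hγ.1.continuous.continuousAt.eventually
      ((chart k (X s)).open_source.mem_nhds hsrc)] with r hr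
    have hy := (chart k (X s)).map_source hr
    refine Phi_same hy.1 (X1 r) ((Phi_chart hr).trans (X3 r).symm) ?_
    have a1 := abs_lt.1 hy.2.1
    have a2 := abs_le.1 (X2 r)
    have a3 := abs_le.1 (X2 s)
    exact abs_lt.2 ⟨by linarith [a1.2, a2.1, a3.2], by linarith [a1.1, a2.2, a3.1]⟩
  have cζ : Continuous fun s => Circle.exp (X s 3) := continuous_iff_continuousAt.2 fun s => by
    obtain ⟨c, c1, c2⟩ := loc s
    refine (Circle.exp.continuous.continuousAt.comp (continuousAt_pi.1 c1 3)).congr ?_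
    filter_upwards [c2] with r ⟨_, _, _, n, hn⟩
    exact (Circle.exp_eq_exp.2 ⟨n, by rw [hn]; ring⟩).symm
  obtain ⟨β, ⟨-, hβ⟩, -⟩ := Circle.isCoveringMap_exp.existsUnique_continuousMap_lifts ⟨_, cζ⟩ 0
    (X 0 3) rfl
  refine ⟨k, fun s => ![X s 0, X s 1, X s 2, β s], continuous_pi fun i => ?_, fun s => ?_⟩
  · fin_cases i
    · exact continuous_iff_continuousAt.2 fun s => (loc s).elim fun c h =>
        (continuousAt_pi.1 h.1 0).congr (h.2.mono fun r hr => hr.1.symm)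
    · exact continuous_iff_continuousAt.2 fun s => (loc s).elim fun c h =>
        (continuousAt_pi.1 h.1 1).congr (h.2.mono fun r hr => hr.2.1.symm)
    · exact continuous_iff_continuousAt.2 fun s => (loc s).elim fun c h =>
        (continuousAt_pi.1 h.1 2).congr (h.2.mono fun r hr => hr.2.2.1.symm)
    · exact β.continuous
  · obtain ⟨n, hn⟩ := Circle.exp_eq_exp.1 (congrFun hβ s)
    obtain ⟨e1, e2⟩ := Phi_shift k (x' := ![X s 0, X s 1, X s 2, β s]) (X1 s) n rfl rfl rfl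
      (by simp [hn, mul_comm])
    exact ⟨show tt _ < 2 from e1 ▸ X1 s, X2 s, e2.trans (X3 s)⟩

theorem short_const (hp : Function.Periodic γ T) (s t : ℝ) : γ s = γ t := by
  obtain ⟨k, c, cc, hc⟩ := exists_lift h0 h1 hγ hE hs hT hET hp
  have hsrc : ∀ s, γ s ∈ (chart k (c s)).source := fun s => ⟨_, mem_NN (hc s).1, (hc s).2.2⟩
  have ev : ∀ s, c =ᶠ[𝓝 s] fun r => chart k (c s) (γ r) := fun s => by
    filter_upwards [cc.continuousAt.eventually ((isOpen_NN _).mem_nhds (mem_NN (hc s).1))]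
      with r hr
    rw [← (hc r).2.2, chart_Phi k hr]
  have d2 : ∀ s, ContDiffAt ℝ 2 c s := fun s =>
    (contDiffAt_chart_curve hγ.1 (chart_mem k _) (hsrc s)).congr_of_eventuallyEq (ev s)
  have hg : ∀ s, GeodEq (GG η) c s := fun s =>
    ((mdata h0 h1).geodEq hγ (chart_mem k _) (hsrc s)).congr_curve (ev s)
  have hq : ∀ s, bil (GG η (c s)) (deriv c s) (deriv c s) = E ^ 2 := fun s => by
    rw [← hs s, (mdata h0 h1).speed hγ.1 (chart_mem k _) (hsrc s), ← (ev s).deriv_eq,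
      ← (ev s).eq_of_nhds]
  have per := fun s => Phi_same (hc s).1 (hc (s + T)).1 (k := k)
    (by rw [(hc _).2.2, (hc _).2.2, hp s]) (by
      have a1 := abs_le.1 (hc s).2.1
      have a2 := abs_le.1 (hc (s + T)).2.1
      exact abs_lt.2 ⟨by linarith [a1.2, a2.1], by linarith [a1.1, a2.2]⟩)
  obtain ⟨j, hj⟩ := (per 0).2.2.2
  have hE0 := no_short h0 h1 d2 hg hE hq hT (fun s => (per s).1) (fun s => (per s).2.1)
    (fun s => (per s).2.2.1) (j := j) (by rw [zero_add] at hj; linarith) (fun s => (hc s).1) hET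
  have hz : ∀ s, deriv c s = 0 := fun s => by
    by_contra h
    have := (GG_pos h0 h1 (c s)).dotProduct_mulVec_pos h
    rw [star_trivial, ← bil_apply, hq, hE0] at this
    simp at this
  rw [← (hc s).2.2, ← (hc t).2.2, is_const_of_deriv_eq_zero
    (fun s => (d2 s).differentiableAt (by simp)) hz s t]

omit hE hs hET in
theorem length_gt (hp : Function.Periodic γ T) (hn : ∃ s t, γ s ≠ γ t) :
    ENNReal.ofReal (kap / 16) < length (mdata h0 h1).metric γ 0 T := by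
  obtain ⟨E, hE, hs⟩ := speed_const h0 h1 hγ
  obtain ⟨s, t, hst⟩ := hn
  have h : kap / 16 < E * T := not_le.1 fun h => hst (short_const h0 h1 hγ hE hs hT h hp s t)
  simp only [length, hs, sqrt_sq hE, MeasureTheory.lintegral_const,
    MeasureTheory.Measure.restrict_apply_univ, volume_Icc, sub_zero]
  rw [← ENNReal.ofReal_mul hE]
  exact (ENNReal.ofReal_lt_ofReal_iff ((div_pos kap_pos (by norm_num)).trans h)).2 h

end Pool.Agent.Lib.MP_3eff7f_gt_h14
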