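import Pool.Agent.Lib.MP_3eff7f_gt_h14.EL

set_option autoImplicit false

namespace Pool.Agent.Lib.MP_3eff7f_gt_h14

open Filter Topology Matrix Set
open scoped ContDiff

abbrev E4 : Type := Fin 4 → ℝ

/-- The cut-off function. -/
noncomputable def psi (t : ℝ) : ℝ := expNegInvGlue (1 / 2 - t)

/-- The value of the cut-off function at zero. -/
noncomputable def kap : ℝ := psi 0

theorem kap_pos : 0 < kap := expNegInvGlue.pos_of_pos (by norm_num)

theorem psi_nonneg (t : ℝ) : 0 ≤ psi t := expNegInvGlue.nonneg _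

theorem psi_le_one (t : ℝ) : psi t ≤ 1 := by
  unfold psi expNegInvGlue
  split_ifs with h
  · exact zero_le_one
  · exact Real.exp_le_one_iff.2 (neg_nonpos.2 (inv_nonneg.2 (not_le.1 h).le))

theorem kap_le_one : kap ≤ 1 := psi_le_one 0

theorem psi_eq_zero {t : ℝ} (h : 1 / 2 ≤ t) : psi t = 0 :=
  expNegInvGlue.zero_of_nonpos (by linarith)

theorem contDiff_psi : ContDiff ℝ ∞ psi :=
  expNegInvGlue.contDiff.comp (contDiff_const.sub contDiff_id)

theorem psi_deriv (t : ℝ) : ∃ d, HasDerivAt psi d t ∧ -2 ≤ d ∧ d ≤ 0 := by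
  have h := expNegInvGlue.hasDerivAt_polynomial_eval_inv_mul 1 (1 / 2 - t)
  simp only [Polynomial.eval_one, one_mul, Polynomial.derivative_one, sub_zero, mul_one,
    Polynomial.eval_pow, Polynomial.eval_X] at h
  have h2 := h.comp t ((hasDerivAt_id t).const_sub (1 / 2))
  refine ⟨_, h2, ?_, ?_⟩
  · have : (1 / 2 - t)⁻¹ ^ 2 * expNegInvGlue (1 / 2 - t) ≤ 2 := by
      unfold expNegInvGlue
      split_ifs with h
      · simp
      · have h0 : 0 ≤ (1 / 2 - t)⁻¹ := inv_nonneg.2 (not_le.1 h).le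
        have h1 := Real.quadratic_le_exp_of_nonneg h0
        rw [Real.exp_neg, ← div_eq_mul_inv, div_le_iff₀ (Real.exp_pos _)]
        linarith
    linarith
  · have := mul_nonneg (sq_nonneg (1 / 2 - t)⁻¹) (expNegInvGlue.nonneg (1 / 2 - t))
    linarith

/-- The function `t + η ψ(t)`. -/
noncomputable def mu (η t : ℝ) : ℝ := t + η * psi t

theorem contDiff_mu (η : ℝ) : ContDiff ℝ ∞ (mu η) :=
  contDiff_id.add (contDiff_const.mul contDiff_psi)

theorem hasDerivAt_mu (η t : ℝ) : HasDerivAt (mu η) (deriv (mu η) t) t :=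
  ((contDiff_mu η).differentiable (by simp) t).hasDerivAt

theorem mu_deriv {η : ℝ} (h0 : 0 < η) (h1 : η ≤ 1 / 4) (t : ℝ) :
    1 / 2 ≤ deriv (mu η) t ∧ deriv (mu η) t ≤ 1 := by
  obtain ⟨d, hd, a, b⟩ := psi_deriv t
  have : HasDerivAt (mu η) (1 + η * d) t := (hasDerivAt_id t).add (hd.const_mul η)
  rw [this.deriv]
  constructor <;> nlinarith

theorem mu_mono {η : ℝ} (h0 : 0 < η) (h1 : η ≤ 1 / 4) : Monotone (mu η) :=
  monotone_of_deriv_nonneg ((contDiff_mu η).differentiable (by simp)) fun t => by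
    linarith [(mu_deriv h0 h1 t).1]

theorem le_mu {η : ℝ} (h0 : 0 < η) (t : ℝ) : t ≤ mu η t :=
  le_add_of_nonneg_right (mul_nonneg h0.le (psi_nonneg t))

theorem mu_zero (η : ℝ) : mu η 0 = η * kap := zero_add _

theorem kap_le_mu {η : ℝ} (h0 : 0 < η) (h1 : η ≤ 1 / 4) {t : ℝ} (ht : 0 ≤ t) :
    η * kap ≤ mu η t :=
  mu_zero η ▸ mu_mono h0 h1 ht

theorem mu_pos {η : ℝ} (h0 : 0 < η) (h1 : η ≤ 1 / 4) {t : ℝ} (ht : 0 ≤ t) : 0 < mu η t :=
  (mul_pos h0 kap_pos).trans_le (kap_le_mu h0 h1 ht)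

theorem mu_eq (η : ℝ) {t : ℝ} (h : 1 / 2 ≤ t) : mu η t = t := by simp [mu, psi_eq_zero h]

/-- Squared distance to the axis. -/
def tt (x : E4) : ℝ := x 0 ^ 2 + x 1 ^ 2

theorem tt_nonneg (x : E4) : 0 ≤ tt x := by unfold tt; positivity

theorem contDiff_tt : ContDiff ℝ ∞ tt := by unfold tt; fun_prop

noncomputable def Bf (η t : ℝ) : ℝ := 4 / mu η t ^ 2 - η / mu η t

noncomputable def Lf (t : ℝ) : ℝ := mu (1 / 4) t ^ 2

noncomputable def Hf (η t : ℝ) : ℝ := η / mu η t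

/-- The metric with given coefficient values. -/
def Gm (η B L H : ℝ) (x : E4) : Matrix (Fin 4) (Fin 4) ℝ :=
  !![η + B * x 0 ^ 2, B * x 0 * x 1, 0, -(η * x 2 * x 1);
    B * x 0 * x 1, η + B * x 1 ^ 2, 0, η * x 2 * x 0;
    0, 0, L, 0;
    -(η * x 2 * x 1), η * x 2 * x 0, 0, η * x 2 ^ 2 * tt x + H]

theorem bil_Gm (η B L H : ℝ) (x v w : E4) : bil (Gm η B L H x) v w =
    η * ((v 0 - x 2 * x 1 * v 3) * (w 0 - x 2 * x 1 * w 3) +
      (v 1 + x 2 * x 0 * v 3) * (w 1 + x 2 * x 0 * w 3)) +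
    B * ((x 0 * v 0 + x 1 * v 1) * (x 0 * w 0 + x 1 * w 1)) + L * (v 2 * w 2) +
      H * (v 3 * w 3) := by
  simp [bil_eq_sum, Fin.sum_univ_four, Gm, tt]
  ring

theorem det_Gm (η B L H : ℝ) (x : E4) : (Gm η B L H x).det = η * (η + B * tt x) * L * H := by
  simp [Gm, tt, Matrix.det_succ_row_zero, Fin.sum_univ_succ, Fin.succAbove, Matrix.submatrix]
  ring

/-- The metric. -/
noncomputable def GG (η : ℝ) : MF 4 := fun x => Gm η (Bf η (tt x)) (Lf (tt x)) (Hf η (tt x)) x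

section

variable {η : ℝ} (h0 : 0 < η) (h1 : η ≤ 1 / 4)
include h0 h1

theorem contDiffAt_Bf {t : ℝ} (ht : 0 ≤ t) : ContDiffAt ℝ ∞ (Bf η) t :=
  (contDiffAt_const.div ((contDiff_mu η).contDiffAt.pow 2) (pow_pos (mu_pos h0 h1 ht) 2).ne').sub
    (contDiffAt_const.div (contDiff_mu η).contDiffAt (mu_pos h0 h1 ht).ne')

theorem contDiffAt_Hf {t : ℝ} (ht : 0 ≤ t) : ContDiffAt ℝ ∞ (Hf η) t :=
  contDiffAt_const.div (contDiff_mu η).contDiffAt (mu_pos h0 h1 ht).ne'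

omit h0 h1 in
theorem contDiff_Lf : ContDiff ℝ ∞ Lf := (contDiff_mu _).pow 2

theorem GG_sm (i j : Fin 4) : ContDiff ℝ ∞ fun x => GG η x i j := by
  have hB : ContDiff ℝ ∞ fun x => Bf η (tt x) := contDiff_iff_contDiffAt.2 fun x =>
    (contDiffAt_Bf h0 h1 (tt_nonneg x)).comp x contDiff_tt.contDiffAt
  have hH : ContDiff ℝ ∞ fun x => Hf η (tt x) := contDiff_iff_contDiffAt.2 fun x =>
    (contDiffAt_Hf h0 h1 (tt_nonneg x)).comp x contDiff_tt.contDiffAt
  have hL : ContDiff ℝ ∞ fun x => Lf (tt x) := contDiff_Lf.comp contDiff_tt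
  have ht := contDiff_tt
  fin_cases i <;> fin_cases j <;> simp [GG, Gm] <;> fun_prop

theorem Hf_pos (x : E4) : 0 < Hf η (tt x) := div_pos h0 (mu_pos h0 h1 (tt_nonneg x))

omit h0 h1 in
theorem Lf_ge (x : E4) : (kap / 4) ^ 2 ≤ Lf (tt x) := by
  have := kap_le_mu (η := 1 / 4) (by norm_num) le_rfl (tt_nonneg x)
  have := kap_pos
  unfold Lf
  gcongr
  linarith

omit h0 h1 in
theorem Lf_pos (x : E4) : 0 < Lf (tt x) :=
  (pow_pos (div_pos kap_pos four_pos) 2).trans_le (Lf_ge x)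

/-- The part of the quadratic form in the first two directions. -/
theorem quad_ge (x : E4) (a b : ℝ) : 4 * (x 0 * a + x 1 * b) ^ 2 / mu η (tt x) ^ 2 ≤
    η * (a * a + b * b) + Bf η (tt x) * ((x 0 * a + x 1 * b) * (x 0 * a + x 1 * b)) := by
  have hm := mu_pos h0 h1 (tt_nonneg x)
  have hl := le_mu h0 (tt x)
  have h2 : (x 0 * a + x 1 * b) ^ 2 ≤ mu η (tt x) * (a * a + b * b) := by
    have : (x 0 * a + x 1 * b) ^ 2 ≤ tt x * (a * a + b * b) := by
      unfold tt; nlinarith [sq_nonneg (x 0 * b - x 1 * a)]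
    nlinarith [mul_self_nonneg a, mul_self_nonneg b]
  have h3 : η / mu η (tt x) * (x 0 * a + x 1 * b) ^ 2 ≤ η * (a * a + b * b) := by
    rw [div_mul_eq_mul_div, div_le_iff₀ hm]
    nlinarith
  unfold Bf
  have : 4 * (x 0 * a + x 1 * b) ^ 2 / mu η (tt x) ^ 2 =
    4 / mu η (tt x) ^ 2 * (x 0 * a + x 1 * b) ^ 2 := by ring
  nlinarith

theorem quad_lower (x v : E4) : 4 * (x 0 * v 0 + x 1 * v 1) ^ 2 / mu η (tt x) ^ 2 +
    Lf (tt x) * v 2 ^ 2 + Hf η (tt x) * v 3 ^ 2 ≤ bil (GG η x) v v := by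
  have := quad_ge h0 h1 x (v 0 - x 2 * x 1 * v 3) (v 1 + x 2 * x 0 * v 3)
  rw [show x 0 * (v 0 - x 2 * x 1 * v 3) + x 1 * (v 1 + x 2 * x 0 * v 3) =
    x 0 * v 0 + x 1 * v 1 by ring] at this
  rw [GG, bil_Gm]
  nlinarith

theorem lam_pos (x : E4) : 0 < η + Bf η (tt x) * tt x := by
  have hm := mu_pos h0 h1 (tt_nonneg x)
  have hl := le_mu h0 (tt x)
  have ht := tt_nonneg x
  have : η + Bf η (tt x) * tt x =
      (η * (mu η (tt x) - tt x) * mu η (tt x) + 4 * tt x) / mu η (tt x) ^ 2 := by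
    unfold Bf; field_simp; ring
  rw [this]
  refine div_pos ?_ (pow_pos hm 2)
  rcases ht.eq_or_lt with h | h
  · rw [← h] at hm ⊢
    simp only [sub_zero, mul_zero, add_zero]
    positivity
  · have := mul_nonneg (mul_nonneg h0.le (sub_nonneg.2 hl)) hm.le
    linarith

theorem GG_pos (x : E4) : (GG η x).PosDef := by
  refine .of_dotProduct_mulVec_pos ?_ fun v hv => ?_
  · ext i j
    fin_cases i <;> fin_cases j <;> simp [GG, Gm]
  · rw [star_trivial, ← bil_apply]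
    have hL := Lf_pos x
    have hH := Hf_pos h0 h1 x
    have hm := mu_pos h0 h1 (tt_nonneg x)
    have hq := quad_lower h0 h1 x v
    have a1 : 0 ≤ 4 * (x 0 * v 0 + x 1 * v 1) ^ 2 / mu η (tt x) ^ 2 := by positivity
    have a2 : 0 ≤ Lf (tt x) * v 2 ^ 2 := by positivity
    have a3 : 0 ≤ Hf η (tt x) * v 3 ^ 2 := by positivity
    by_contra hc
    have b1 : 4 * (x 0 * v 0 + x 1 * v 1) ^ 2 / mu η (tt x) ^ 2 = 0 := by linarith
    have b2 : v 2 = 0 := by
      have : Lf (tt x) * v 2 ^ 2 = 0 := by linarith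
      simpa [hL.ne'] using this
    have b3 : v 3 = 0 := by
      have : Hf η (tt x) * v 3 ^ 2 = 0 := by linarith
      simpa [hH.ne'] using this
    have b4 : x 0 * v 0 + x 1 * v 1 = 0 := by simpa [hm.ne'] using b1
    rw [GG, bil_Gm, b2, b3, b4] at hc
    have b5 : v 0 * v 0 + v 1 * v 1 ≤ 0 := by
      by_contra h
      exact hc (by nlinarith [mul_pos h0 (not_le.1 h)])
    have b6 : v 0 = 0 :=
      mul_self_eq_zero.1 (by nlinarith [mul_self_nonneg (v 0), mul_self_nonneg (v 1)])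
    have b7 : v 1 = 0 :=
      mul_self_eq_zero.1 (by nlinarith [mul_self_nonneg (v 0), mul_self_nonneg (v 1)])
    apply hv
    ext i
    fin_cases i
    · exact b6
    · exact b7
    · exact b2
    · exact b3

theorem hasDerivAt_Hf {t : ℝ} (ht : 0 ≤ t) :
    HasDerivAt (Hf η) (-(η * deriv (mu η) t / mu η t ^ 2)) t := by
  have := (hasDerivAt_const t η).div (hasDerivAt_mu η t) (mu_pos h0 h1 ht).ne'
  refine this.congr_deriv ?_
  ring

omit h0 h1 in
theorem Lf_deriv {t : ℝ} (ht : 0 ≤ t) : 0 ≤ deriv Lf t := by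
  have := ((hasDerivAt_mu (1 / 4) t).pow 2).deriv
  have a := (mu_deriv (η := 1 / 4) (by norm_num) le_rfl t).1
  have b := mu_pos (η := 1 / 4) (by norm_num) le_rfl ht
  change deriv Lf t = _ at this
  rw [this]
  have : 0 ≤ deriv (mu (1 / 4)) t := by linarith
  positivity

theorem fderiv_GG (x v w : E4) : fderiv ℝ (fun y => bil (GG η y) v v) x w =
    2 * η * ((v 0 - x 2 * x 1 * v 3) * (-(w 2 * x 1 + x 2 * w 1) * v 3) +
      (v 1 + x 2 * x 0 * v 3) * ((w 2 * x 0 + x 2 * w 0) * v 3)) +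
    2 * Bf η (tt x) * ((x 0 * v 0 + x 1 * v 1) * (w 0 * v 0 + w 1 * v 1)) +
    2 * (x 0 * w 0 + x 1 * w 1) * (deriv (Bf η) (tt x) * (x 0 * v 0 + x 1 * v 1) ^ 2 +
      deriv Lf (tt x) * v 2 ^ 2 - η * deriv (mu η) (tt x) / mu η (tt x) ^ 2 * v 3 ^ 2) := by
  have hd : DifferentiableAt ℝ (fun y => bil (GG η y) v v) x := by
    simp only [bil_eq_sum]
    exact DifferentiableAt.fun_sum fun i _ => DifferentiableAt.fun_sum fun j _ =>
      ((((GG_sm h0 h1 i j).differentiable (by simp)) x).mul_const _).mul_const _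
  have hl : HasDerivAt (fun s : ℝ => x + s • w) w 0 := by
    simpa using ((hasDerivAt_id (0 : ℝ)).smul_const w).const_add x
  have e1 := HasFDerivAt.comp_hasDerivAt (0 : ℝ) (l := fun y => bil (GG η y) v v)
    (by simpa using hd.hasFDerivAt) hl
  have e2 : x + (0 : ℝ) • w = x := by simp
  refine HasDerivAt.unique e1 ?_
  have c : ∀ i, HasDerivAt (fun s : ℝ => (x + s • w) i) (w i) 0 := hasDerivAt_pi.1 hl
  have ct : HasDerivAt (fun s : ℝ => tt (x + s • w)) (2 * (x 0 * w 0 + x 1 * w 1)) 0 := by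
    refine (((c 0).pow 2).add ((c 1).pow 2)).congr_deriv ?_
    simp
    ring
  have e0 : tt x = tt (x + (0 : ℝ) • w) := by simp
  have cB := HasDerivAt.comp_of_eq (0 : ℝ)
    ((contDiffAt_Bf h0 h1 (tt_nonneg x)).differentiableAt (by simp)).hasDerivAt ct e0
  have cL := HasDerivAt.comp_of_eq (0 : ℝ)
    (contDiff_Lf.differentiable (by simp) (tt x)).hasDerivAt ct e0
  have cH := HasDerivAt.comp_of_eq (0 : ℝ) (hasDerivAt_Hf h0 h1 (tt_nonneg x)) ct e0
  have a1 := (((c 2).mul (c 1)).mul_const (v 3)).const_sub (v 0)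
  have a2 := (((c 2).mul (c 0)).mul_const (v 3)).const_add (v 1)
  have a3 := ((c 0).mul_const (v 0)).add ((c 1).mul_const (v 1))
  have := (((((a1.mul a1).add (a2.mul a2)).const_mul η).add (cB.mul (a3.mul a3))).add
    (cL.mul_const (v 2 * v 2))).add (cH.mul_const (v 3 * v 3))
  simp only [Function.comp_def, GG, bil_Gm]
  refine this.congr_deriv ?_
  simp
  ring

end

end Pool.Agent.Lib.MP_3eff7f_gt_h14
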