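import Pool.Agent.Lib.MP_3eff7f_gt_h14.Metric

set_option autoImplicit false

namespace Pool.Agent.Lib.MP_3eff7f_gt_h14

open Filter Topology Matrix Set Real
open scoped ContDiff MatrixGroups

/-- `α` is a polar angle of the first two coordinates. -/
def Pol (x : E4) (α : ℝ) : Prop := x 0 = √(tt x) * cos α ∧ x 1 = √(tt x) * sin α

theorem Pol.per {x : E4} {α β : ℝ} (h : Pol x α) (m : ℤ) (e : β = α + 2 * π * m) : Pol x β := by
  rw [e, mul_comm (2 * π)]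
  simpa only [Pol, cos_add_int_mul_two_pi, sin_add_int_mul_two_pi] using h

theorem Pol.of_zero {x : E4} (h : tt x = 0) (α : ℝ) : Pol x α := by
  have : x 0 = 0 ∧ x 1 = 0 := by
    unfold tt at h
    constructor <;> nlinarith [sq_nonneg (x 0), sq_nonneg (x 1)]
  simp [Pol, h, this]

theorem Pol.uniq {x : E4} {α β : ℝ} (h : Pol x α) (h' : Pol x β) (h0 : tt x ≠ 0) :
    ∃ m : ℤ, β = α + 2 * π * m := by
  have hs : √(tt x) ≠ 0 := (sqrt_pos.2 ((tt_nonneg x).lt_of_ne h0.symm)).ne'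
  have := Real.Angle.cos_sin_inj (mul_left_cancel₀ hs (h'.1.symm.trans h.1))
    (mul_left_cancel₀ hs (h'.2.symm.trans h.2))
  obtain ⟨m, hm⟩ := Real.Angle.angle_eq_iff_two_pi_dvd_sub.1 this
  exact ⟨m, by linarith⟩

theorem exists_pol (x : E4) : ∃ α ∈ Icc (-π) π, Pol x α := by
  let z : ℂ := ⟨x 0, x 1⟩
  have hz : ‖z‖ = √(tt x) := by rw [Complex.norm_eq_sqrt_sq_add_sq]; rfl
  refine ⟨z.arg, Ioc_subset_Icc_self z.arg_mem_Ioc, ?_, ?_⟩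
  · rw [← hz, Complex.norm_mul_cos_arg]
  · rw [← hz, Complex.norm_mul_sin_arg]

theorem det_SL (σ : SL(2, ℤ)) : σ 0 0 * σ 1 1 - σ 0 1 * σ 1 0 = 1 := by
  have := σ.det_coe
  rwa [det_fin_two] at this

theorem det_SL' (σ : SL(2, ℤ)) : (σ 0 0 : ℝ) * σ 1 1 - σ 0 1 * σ 1 0 = 1 := by
  exact_mod_cast det_SL σ

/-- The point of the upper half plane. -/
noncomputable def tau (x : E4) : ℂ := ⟨x 2, (tt x)⁻¹⟩

/-- The Moebius action on the base. -/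
def Base (σ : SL(2, ℤ)) (x x' : E4) : Prop :=
  tau x' * (σ 1 0 * tau x + σ 1 1) = σ 0 0 * tau x + σ 0 1 ∧ (tt x = 0 → σ 1 0 = 0)

theorem base_iff {σ : SL(2, ℤ)} {x x' : E4} : Base σ x x' ↔
    (x' 2 * (σ 1 0 * x 2 + σ 1 1) - (tt x')⁻¹ * (σ 1 0 * (tt x)⁻¹) = σ 0 0 * x 2 + σ 0 1 ∧
    x' 2 * (σ 1 0 * (tt x)⁻¹) + (tt x')⁻¹ * (σ 1 0 * x 2 + σ 1 1) = σ 0 0 * (tt x)⁻¹) ∧
      (tt x = 0 → σ 1 0 = 0) := by
  simp [Base, Complex.ext_iff, tau]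

theorem Base.im {σ : SL(2, ℤ)} {x x' : E4} (h : Base σ x x') :
    (tt x')⁻¹ * ((σ 1 0 * x 2 + σ 1 1) ^ 2 + (σ 1 0 * (tt x)⁻¹) ^ 2) = (tt x)⁻¹ := by
  obtain ⟨⟨h1, h2⟩, -⟩ := base_iff.1 h
  linear_combination (σ 1 0 * x 2 + σ 1 1) * h2 - σ 1 0 * (tt x)⁻¹ * h1 + (tt x)⁻¹ * det_SL' σ

theorem Base.re {σ : SL(2, ℤ)} {x x' : E4} (h : Base σ x x') :
    (σ 0 0 - σ 1 0 * x' 2) * ((σ 1 0 * x 2 + σ 1 1) ^ 2 + (σ 1 0 * (tt x)⁻¹) ^ 2) =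
      σ 1 0 * x 2 + σ 1 1 := by
  obtain ⟨⟨h1, h2⟩, -⟩ := base_iff.1 h
  linear_combination -(σ 1 0 * (σ 1 0 * x 2 + σ 1 1)) * h1 - σ 1 0 ^ 2 * (tt x)⁻¹ * h2 +
    (σ 1 0 * x 2 + σ 1 1) * det_SL' σ

theorem unit_of_c {σ : SL(2, ℤ)} (h : σ 1 0 = 0) : σ 1 1 = σ 0 0 ∧ σ 0 0 * σ 0 0 = 1 := by
  have := det_SL σ
  rw [h, mul_zero, sub_zero] at this
  rcases Int.eq_one_or_neg_one_of_mul_eq_one' this with ⟨a, b⟩ | ⟨a, b⟩ <;> simp [a, b]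

theorem unit_of_c' {σ : SL(2, ℤ)} (h : σ 1 0 = 0) :
    (σ 1 1 : ℝ) = σ 0 0 ∧ (σ 0 0 : ℝ) * σ 0 0 = 1 := by
  exact_mod_cast unit_of_c h

theorem base_iff_zero {σ : SL(2, ℤ)} {x x' : E4} (hc : σ 1 0 = 0) :
    Base σ x x' ↔ tt x' = tt x ∧ x' 2 = x 2 + σ 0 0 * σ 0 1 := by
  obtain ⟨h1, h2⟩ := unit_of_c' hc
  rw [base_iff, hc, h1]
  simp only [Int.cast_zero, zero_mul, zero_add, mul_zero, sub_zero, implies_true, and_true]
  constructor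
  · rintro ⟨a, b⟩
    exact ⟨inv_injective (by linear_combination σ 0 0 * b + ((tt x)⁻¹ - (tt x')⁻¹) * h2),
      by linear_combination σ 0 0 * a + (x 2 - x' 2) * h2⟩
  · rintro ⟨a, b⟩
    exact ⟨by linear_combination σ 0 0 * b + σ 0 1 * h2, by rw [a, mul_comm]⟩

theorem Base.pos {σ : SL(2, ℤ)} {x x' : E4} (h : Base σ x x') (hx : tt x ≠ 0) : tt x' ≠ 0 := by
  intro h0
  have := h.im
  rw [h0, _root_.inv_zero, zero_mul] at this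
  exact inv_ne_zero hx this.symm

theorem Base.zero_iff {σ : SL(2, ℤ)} {x x' : E4} (h : Base σ x x') : tt x' = 0 ↔ tt x = 0 :=
  ⟨fun h0 => by_contra fun hx => h.pos hx h0,
    fun h0 => ((base_iff_zero (h.2 h0)).1 h).1.trans h0⟩

theorem base_iff_ne {σ : SL(2, ℤ)} {x x' : E4} (hc : σ 1 0 ≠ 0) : Base σ x x' ↔
    (x' 2 * (σ 1 0 * x 2 + σ 1 1) - (σ 0 0 * x 2 + σ 0 1)) * (tt x * tt x') = σ 1 0 ∧
      x' 2 * σ 1 0 * tt x' + tt x * (σ 1 0 * x 2 + σ 1 1) = σ 0 0 * tt x' := by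
  constructor
  · intro h
    have hx : tt x ≠ 0 := fun h0 => hc (h.2 h0)
    have hx' := h.pos hx
    obtain ⟨⟨h1, h2⟩, -⟩ := base_iff.1 h
    field_simp at h1 h2
    exact ⟨by linear_combination h1, by linear_combination h2⟩
  · rintro ⟨h1, h2⟩
    have h3 : tt x * tt x' ≠ 0 := fun h => hc (by
      rw [h, mul_zero] at h1
      exact_mod_cast h1.symm)
    have hx := left_ne_zero_of_mul h3
    have hx' := right_ne_zero_of_mul h3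
    refine base_iff.2 ⟨⟨?_, ?_⟩, fun h => (hx h).elim⟩ <;> field_simp
    · linear_combination h1
    · linear_combination h2

theorem Base.tt_eq {σ : SL(2, ℤ)} {x x' : E4} (h : Base σ x x') (hx : tt x ≠ 0) :
    tt x' = tt x * ((σ 1 0 * x 2 + σ 1 1) ^ 2 + (σ 1 0 * (tt x)⁻¹) ^ 2) := by
  have := h.im
  have hx' := h.pos hx
  rw [inv_mul_eq_iff_eq_mul₀ hx'] at this
  rw [this]
  field_simp

theorem Base.c_sq {σ : SL(2, ℤ)} {x x' : E4} (h : Base σ x x') :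
    (σ 1 0 : ℝ) ^ 2 ≤ tt x * tt x' := by
  by_cases hx : tt x = 0
  · simp [h.2 hx, hx]
  · rw [h.tt_eq hx]
    have : tt x * (tt x * (σ 1 0 * (tt x)⁻¹) ^ 2) = σ 1 0 ^ 2 := by field_simp
    nlinarith [mul_nonneg (mul_self_nonneg (tt x)) (sq_nonneg (σ 1 0 * x 2 + σ 1 1))]

theorem Base.half {σ : SL(2, ℤ)} {x x' : E4} (h : Base σ x x') (hc : σ 1 0 ≠ 0) (hx : tt x < 2)
    (hx' : tt x' < 2) : 1 / 2 < tt x ∧ 1 / 2 < tt x' := by
  have h1 : (1 : ℝ) ≤ σ 1 0 ^ 2 := by exact_mod_cast (one_le_sq_iff_one_le_abs _).2 (Int.one_le_abs hc)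
  have h2 := h.c_sq
  have := tt_nonneg x
  have := tt_nonneg x'
  constructor <;> nlinarith

theorem Base.refl (x : E4) : Base 1 x x := by simp [Base]

theorem Base.symm {σ : SL(2, ℤ)} {x x' : E4} (h : Base σ x x') : Base σ⁻¹ x' x := by
  refine ⟨?_, fun h0 => ?_⟩
  · simp only [SpecialLinearGroup.SL2_inv_expl]
    simp
    linear_combination -h.1
  · simp only [SpecialLinearGroup.SL2_inv_expl]
    simpa using h.2 (h.zero_iff.1 h0)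

theorem mul_SL (σ σ' : SL(2, ℤ)) (i j : Fin 2) :
    (σ * σ') i j = σ i 0 * σ' 0 j + σ i 1 * σ' 1 j := by
  simp [mul_apply, Fin.sum_univ_two]

theorem Base.trans {σ σ' : SL(2, ℤ)} {x x' x'' : E4} (h : Base σ x x') (h' : Base σ' x' x'') :
    Base (σ' * σ) x x'' := by
  refine ⟨?_, fun h0 => ?_⟩
  · simp only [mul_SL]
    push_cast
    linear_combination (σ 1 0 * tau x + σ 1 1) * h'.1 - (tau x'' * σ' 1 0 - σ' 0 0) * h.1
  · simp [mul_SL, h.2 h0, h'.2 (h.zero_iff.2 h0)]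

/-- The gluing relation attached to an integral unimodular matrix. -/
def Rel (σ : SL(2, ℤ)) (x x' : E4) : Prop :=
  Base σ x x' ∧ ∃ (α : ℝ) (n : ℤ), Pol x α ∧ Pol x' (σ 0 0 * α - σ 0 1 * x 3) ∧
    x' 3 = -(σ 1 0 * α) + σ 1 1 * x 3 + 2 * π * n

theorem Rel.change {σ : SL(2, ℤ)} {x x' : E4} (h : Rel σ x x') {α : ℝ} (hα : Pol x α) :
    ∃ n : ℤ, Pol x' (σ 0 0 * α - σ 0 1 * x 3) ∧
      x' 3 = -(σ 1 0 * α) + σ 1 1 * x 3 + 2 * π * n := by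
  obtain ⟨hb, β, n, h1, h2, h3⟩ := h
  by_cases hx : tt x = 0
  · exact ⟨n, .of_zero (hb.zero_iff.2 hx) _, by simpa [hb.2 hx] using h3⟩
  · obtain ⟨m, rfl⟩ := h1.uniq hα hx
    exact ⟨n + σ 1 0 * m, h2.per (σ 0 0 * m) (by push_cast; ring), by rw [h3]; push_cast; ring⟩

theorem Rel.shift (x x' : E4) (n : ℤ) (h0 : x' 0 = x 0) (h1 : x' 1 = x 1) (h2 : x' 2 = x 2)
    (h3 : x' 3 = x 3 + 2 * π * n) : Rel 1 x x' := by
  obtain ⟨α, -, hα⟩ := exists_pol x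
  have ht : tt x' = tt x := by simp only [tt, h0, h1]
  refine ⟨(base_iff_zero (by simp)).2 ⟨ht, by simp [h2]⟩, α, n, hα, ?_, by simp [h3]⟩
  simpa [Pol, ht, h0, h1] using hα

theorem Rel.refl (x : E4) : Rel 1 x x := .shift x x 0 rfl rfl rfl (by simp)

theorem Rel.symm {σ : SL(2, ℤ)} {x x' : E4} (h : Rel σ x x') : Rel σ⁻¹ x' x := by
  obtain ⟨hb, α, n, h1, h2, h3⟩ := h
  have hd := det_SL' σ
  refine ⟨hb.symm, _, -(σ 0 0 * n), h2, h1.per (σ 0 1 * n) ?_, ?_⟩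
  · simp only [SpecialLinearGroup.SL2_inv_expl]
    simp [h3]
    linear_combination α * hd
  · simp only [SpecialLinearGroup.SL2_inv_expl]
    simp [h3]
    linear_combination -x 3 * hd

theorem Rel.trans {σ σ' : SL(2, ℤ)} {x x' x'' : E4} (h : Rel σ x x') (h' : Rel σ' x' x'') :
    Rel (σ' * σ) x x'' := by
  obtain ⟨hb, α, n, h1, h2, h3⟩ := h
  obtain ⟨m, h4, h5⟩ := h'.change h2
  refine ⟨hb.trans h'.1, α, m + σ' 1 1 * n, h1, h4.per (σ' 0 1 * n) ?_, ?_⟩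
  · simp only [mul_SL, h3]
    push_cast
    ring
  · simp only [mul_SL, h5, h3]
    push_cast
    ring

theorem Rel.gamma {σ : SL(2, ℤ)} {x x' : E4} (h : Rel σ x x') (hx : tt x < 2) (hx' : tt x' < 2)
    (hσ : σ ∈ CongruenceSubgroup.Gamma 3) (hθ : |x' 2 - x 2| < 3) :
    x' 0 = x 0 ∧ x' 1 = x 1 ∧ x' 2 = x 2 ∧ ∃ n : ℤ, x' 3 = x 3 + 2 * π * n := by
  obtain ⟨g1, g2, g3, -⟩ := CongruenceSubgroup.Gamma_mem.1 hσ
  have g2' : (3 : ℤ) ∣ σ 0 1 := (ZMod.intCast_zmod_eq_zero_iff_dvd _ 3).1 g2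
  have g3' : (3 : ℤ) ∣ σ 1 0 := (ZMod.intCast_zmod_eq_zero_iff_dvd _ 3).1 g3
  have hc : σ 1 0 = 0 := by
    have h1 := h.1.c_sq
    have h2 : tt x * tt x' ≤ 2 * 2 := by
      have := tt_nonneg x'
      gcongr
    have h3 : σ 1 0 ^ 2 ≤ 4 := by exact_mod_cast (by linarith : (σ 1 0 : ℝ) ^ 2 ≤ 4)
    have h4 : -2 ≤ σ 1 0 ∧ σ 1 0 ≤ 2 := by constructor <;> nlinarith
    omega
  obtain ⟨u1, u2⟩ := unit_of_c hc
  have ha : σ 0 0 = 1 := by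
    rcases Int.eq_one_or_neg_one_of_mul_eq_one u2 with a | a
    · exact a
    · rw [a] at g1
      exact absurd g1 (by decide)
  obtain ⟨b1, b2⟩ := (base_iff_zero hc).1 h.1
  have hb : σ 0 1 = 0 := by
    rw [b2, ha, add_sub_cancel_left, Int.cast_one, one_mul] at hθ
    have : |σ 0 1| < 3 := by exact_mod_cast hθ
    have := abs_lt.1 this
    omega
  obtain ⟨-, α, n, h1, h2, h3⟩ := h
  simp only [ha, hb, hc, u1, Int.cast_one, one_mul, Int.cast_zero, zero_mul, sub_zero, mul_zero,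
    add_zero, neg_zero, zero_add] at h2 h3 b2
  exact ⟨by rw [h2.1, h1.1, b1], by rw [h2.2, h1.2, b1], b2, n, h3⟩

theorem isClosed_base (σ : SL(2, ℤ)) : IsClosed {p : E4 × E4 | Base σ p.1 p.2} := by
  have := contDiff_tt.continuous
  by_cases hc : σ 1 0 = 0
  · simp only [base_iff_zero hc]
    exact (isClosed_eq (by fun_prop) (by fun_prop)).inter (isClosed_eq (by fun_prop) (by fun_prop))
  · simp only [base_iff_ne hc]
    exact (isClosed_eq (by fun_prop) (by fun_prop)).inter (isClosed_eq (by fun_prop) (by fun_prop))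

theorem isClosed_rel (σ : SL(2, ℤ)) : IsClosed {p : E4 × E4 | Rel σ p.1 p.2} := by
  have := contDiff_tt.continuous
  have h1 : IsClosed {q : (E4 × E4) × Icc (-π) π | (Pol q.1.1 q.2 ∧
      Pol q.1.2 (σ 0 0 * q.2 - σ 0 1 * q.1.1 3)) ∧
      cos (q.1.2 3 - (-(σ 1 0 * q.2) + σ 1 1 * q.1.1 3)) = 1} :=
    (((isClosed_eq (by fun_prop) (by fun_prop)).inter
      (isClosed_eq (by fun_prop) (by fun_prop))).inter ((isClosed_eq (by fun_prop)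
      (by fun_prop)).inter (isClosed_eq (by fun_prop) (by fun_prop)))).inter
      (isClosed_eq (by fun_prop) (by fun_prop))
  convert (isClosed_base σ).inter (isClosedMap_fst_of_compactSpace _ h1) using 1
  ext p
  constructor
  · intro h
    obtain ⟨α, hα, h2⟩ := exists_pol p.1
    obtain ⟨n, h3, h4⟩ := Rel.change h h2
    refine ⟨h.1, (p, ⟨α, hα⟩), ⟨⟨h2, h3⟩, ?_⟩, rfl⟩
    simp only [h4, add_sub_cancel_left, mul_comm (2 * π), cos_int_mul_two_pi]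
  · rintro ⟨h, ⟨_, α⟩, ⟨⟨h2, h3⟩, h4⟩, rfl⟩
    obtain ⟨n, hn⟩ := (cos_eq_one_iff _).1 h4
    exact ⟨h, α, n, h2, h3, by linarith⟩

theorem Base.d_bound {σ : SL(2, ℤ)} {x x' : E4} (h : Base σ x x') (hx : tt x < 2)
    (hx' : tt x' < 2) : |(σ 1 0 : ℝ)| ≤ 2 ∧ |(σ 1 1 : ℝ)| ≤ 2 + 2 * |x 2| := by
  have h2 : tt x * tt x' ≤ 2 * 2 := by
    have := tt_nonneg x'
    gcongr
  have hc : |(σ 1 0 : ℝ)| ≤ 2 := abs_le.2 (abs_le_of_sq_le_sq' (by linarith [h.c_sq]) two_pos.le)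
  refine ⟨hc, ?_⟩
  by_cases h0 : σ 1 0 = 0
  · obtain ⟨u1, u2⟩ := unit_of_c' h0
    have : |(σ 1 1 : ℝ)| ≤ 1 := abs_le.2 (abs_le_of_sq_le_sq' (by rw [u1]; linarith) one_pos.le)
    linarith [abs_nonneg (x 2)]
  · obtain ⟨a, b⟩ := h.half h0 hx hx'
    have h3 := h.tt_eq (by linarith)
    have h4 : |σ 1 0 * x 2 + σ 1 1| ≤ 2 := abs_le.2 (abs_le_of_sq_le_sq' (by
      nlinarith [sq_nonneg (σ 1 0 * x 2 + σ 1 1), sq_nonneg (σ 1 0 * (tt x)⁻¹)]) two_pos.le)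
    have h5 : |σ 1 0 * x 2| ≤ 2 * |x 2| := by rw [abs_mul]; gcongr
    have := abs_sub (σ 1 0 * x 2 + σ 1 1) (σ 1 0 * x 2)
    rw [add_sub_cancel_left] at this
    linarith

theorem Base.bound {σ : SL(2, ℤ)} {x x' : E4} (h : Base σ x x') (hx : tt x < 2)
    (hx' : tt x' < 2) {R : ℝ} (hR : |x 2| ≤ R) (hR' : |x' 2| ≤ R) (i j : Fin 2) :
    |(σ i j : ℝ)| ≤ (2 + 2 * R) ^ 2 + 1 := by
  obtain ⟨h1, h2⟩ := h.d_bound hx hx'
  have h3 := (h.symm.d_bound hx' hx).2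
  simp only [SpecialLinearGroup.SL2_inv_expl] at h3
  simp at h3
  have h0 : 0 ≤ R := (abs_nonneg _).trans hR
  fin_cases i <;> fin_cases j <;> simp
  · nlinarith
  · by_cases hc : σ 1 0 = 0
    · obtain ⟨u1, u2⟩ := unit_of_c' hc
      have e : (σ 0 1 : ℝ) ^ 2 = (x' 2 - x 2) ^ 2 := by
        rw [((base_iff_zero hc).1 h).2]
        linear_combination -(σ 0 1 : ℝ) ^ 2 * u2
      rw [sq_eq_sq_iff_abs_eq_abs] at e
      have := abs_sub (x' 2) (x 2)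
      nlinarith
    · have h4 : (1 : ℝ) ≤ |(σ 1 0 : ℝ)| := by exact_mod_cast Int.one_le_abs hc
      have h5 : |(σ 0 1 : ℝ)| * |(σ 1 0 : ℝ)| ≤ |(σ 0 0 : ℝ)| * |(σ 1 1 : ℝ)| + 1 := by
        rw [← abs_mul, ← abs_mul, show (σ 0 1 : ℝ) * σ 1 0 = σ 0 0 * σ 1 1 - 1 by
          linarith [det_SL' σ]]
        simpa using abs_sub ((σ 0 0 : ℝ) * σ 1 1) 1
      have h6 : |(σ 0 0 : ℝ)| * |(σ 1 1 : ℝ)| ≤ (2 + 2 * R) * (2 + 2 * R) := by
        gcongr <;> linarith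
      nlinarith [abs_nonneg (σ 0 1 : ℝ)]
  · nlinarith
  · nlinarith

theorem finite_bdd (R : ℝ) : {σ : SL(2, ℤ) | ∀ i j, |(σ i j : ℝ)| ≤ R}.Finite := by
  have h : {A : Fin 2 → Fin 2 → ℤ | ∀ i, A i ∈ {r : Fin 2 → ℤ | ∀ j, r j ∈ Icc (-⌈R⌉) ⌈R⌉}}.Finite :=
    Finite.pi' fun _ => Finite.pi' fun _ => finite_Icc _ _
  refine (h.preimage (f := fun σ : SL(2, ℤ) => fun i j => σ i j)
    fun σ _ σ' _ e => Matrix.SpecialLinearGroup.ext _ _ fun i j => congrFun₂ e i j).subset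
    fun σ hσ i j => abs_le.1 ?_
  exact_mod_cast (hσ i j).trans (Int.le_ceil R)

end Pool.Agent.Lib.MP_3eff7f_gt_h14
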